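import Mathlib

set_option autoImplicit false

/-!
# The circle method step

`R S` is the reciprocal sum of a finite set of positive integers.  If `R B` is slightly below `2`
and every residue `h` modulo `P` outside a short interval around `0` has many `n ∈ B` without a
multiple close to `h`, then some `S ⊆ B` has `R S = 1`.
-/

namespace Pool.Agent.TH941.UF

open Finset Real

/-- the reciprocal sum -/
noncomputable def R (S : Finset ℕ) : ℝ := ∑ n ∈ S, (1 : ℝ) / n

lemma R_nonneg (S : Finset ℕ) : 0 ≤ R S := Finset.sum_nonneg fun n _ => by positivity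

lemma R_mono {S T : Finset ℕ} (h : S ⊆ T) : R S ≤ R T :=
  Finset.sum_le_sum_of_subset_of_nonneg h fun n _ _ => by positivity

lemma R_insert {S : Finset ℕ} {a : ℕ} (h : a ∉ S) : R (insert a S) = 1 / a + R S := by
  unfold R
  rw [Finset.sum_insert h]

lemma cos_sum (B : Finset ℕ) (h : ℝ) : ∀ θ : ℝ,
    ∑ S ∈ B.powerset, cos (θ + 2 * π * h * R S) =
      2 ^ B.card * (∏ n ∈ B, cos (π * h / n)) * cos (θ + π * h * R B) := by
  induction B using Finset.induction_on with
  | empty => intro θ; simp [R]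
  | insert a B ha ih =>
    intro θ
    rw [Finset.sum_powerset_insert ha]
    have e1 : ∑ S ∈ B.powerset, cos (θ + 2 * π * h * R (insert a S)) =
        ∑ S ∈ B.powerset, cos ((θ + 2 * π * h * (1 / a)) + 2 * π * h * R S) := by
      refine Finset.sum_congr rfl fun S hS => ?_
      have : a ∉ S := fun h' => ha (Finset.mem_powerset.1 hS h')
      rw [R_insert this]
      ring_nf
    rw [e1, ih θ, ih (θ + 2 * π * h * (1 / a)), Finset.card_insert_of_notMem ha,
      Finset.prod_insert ha, R_insert ha]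
    have e2 : cos (θ + π * h * R B) + cos (θ + 2 * π * h * (1 / a) + π * h * R B) =
        2 * cos (π * h / a) * cos (θ + π * h * (1 / a + R B)) := by
      rw [Real.cos_add_cos]
      have e3 : (θ + π * h * R B + (θ + 2 * π * h * (1 / a) + π * h * R B)) / 2 =
          θ + π * h * (1 / a + R B) := by ring
      have e4 : (θ + π * h * R B - (θ + 2 * π * h * (1 / a) + π * h * R B)) / 2 =
          -(π * h / a) := by ring
      rw [e3, e4, Real.cos_neg]
      ring
    calc 2 ^ B.card * (∏ n ∈ B, cos (π * h / n)) * cos (θ + π * h * R B) +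
          2 ^ B.card * (∏ n ∈ B, cos (π * h / n)) *
            cos (θ + 2 * π * h * (1 / a) + π * h * R B)
        = 2 ^ B.card * (∏ n ∈ B, cos (π * h / n)) * (cos (θ + π * h * R B) +
            cos (θ + 2 * π * h * (1 / a) + π * h * R B)) := by ring
      _ = _ := by rw [e2]; ring

lemma cos_geo {P : ℕ} (hP : 0 < P) (a : ℕ) :
    ∑ h ∈ range P, cos (2 * π * h * ((a : ℝ) / P)) = if P ∣ a then (P : ℝ) else 0 := by
  have hP' : (P : ℂ) ≠ 0 := by exact_mod_cast hP.ne'
  have hPr : (P : ℝ) ≠ 0 := by exact_mod_cast hP.ne'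
  split_ifs with hd
  · obtain ⟨b, rfl⟩ := hd
    have : ∀ h ∈ range P, cos (2 * π * h * (((P * b : ℕ) : ℝ) / P)) = 1 := by
      intro h _
      have e : 2 * π * h * (((P * b : ℕ) : ℝ) / P) = ((h * b : ℕ) : ℝ) * (2 * π) := by
        push_cast
        field_simp
      rw [e]
      exact Real.cos_nat_mul_two_pi _
    rw [Finset.sum_congr rfl this]
    simp
  · set ζ : ℂ := Complex.exp (2 * π * Complex.I * ((a : ℂ) / P)) with hζ
    have h1 : ζ ≠ 1 := by
      intro h
      rw [hζ, Complex.exp_eq_one_iff] at h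
      obtain ⟨n, hn⟩ := h
      have h2 : (a : ℂ) / P = n := by
        have h3 : (2 * π * Complex.I : ℂ) ≠ 0 := Complex.two_pi_I_ne_zero
        have h4 : (2 * π * Complex.I : ℂ) * ((a : ℂ) / P) = (2 * π * Complex.I : ℂ) * n := by
          rw [hn]; ring
        exact mul_left_cancel₀ h3 h4
      rw [div_eq_iff hP'] at h2
      have h5 : (a : ℤ) = n * P := by exact_mod_cast h2
      apply hd
      have : (P : ℤ) ∣ a := ⟨n, by rw [h5]; ring⟩
      exact_mod_cast this
    have h2 : ζ ^ P = 1 := by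
      rw [hζ, ← Complex.exp_nat_mul, Complex.exp_eq_one_iff]
      refine ⟨a, ?_⟩
      push_cast
      field_simp
    have h3 : ∑ h ∈ range P, ζ ^ h = 0 := by
      have h4 := mul_geom_sum ζ P
      rw [h2, sub_self] at h4
      rcases mul_eq_zero.1 h4 with h5 | h5
      · exact absurd (sub_eq_zero.1 h5) h1
      · exact h5
    have h4 : ∀ h : ℕ, cos (2 * π * h * ((a : ℝ) / P)) = (ζ ^ h).re := by
      intro h
      rw [hζ, ← Complex.exp_nat_mul]
      have : (h : ℂ) * (2 * π * Complex.I * ((a : ℂ) / P)) =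
          ((2 * π * h * ((a : ℝ) / P) : ℝ) : ℂ) * Complex.I := by
        push_cast
        ring
      rw [this, Complex.exp_ofReal_mul_I_re]
    calc ∑ h ∈ range P, cos (2 * π * h * ((a : ℝ) / P)) = ∑ h ∈ range P, (ζ ^ h).re :=
          Finset.sum_congr rfl fun h _ => h4 h
      _ = (∑ h ∈ range P, ζ ^ h).re := by rw [Complex.re_sum]
      _ = 0 := by rw [h3]; rfl

/-- `|cos (π t)| ≤ exp (-2 d²)` if `t` is at distance at least `d` from every integer -/
lemma abs_cos_le {t d : ℝ} (hd : 0 ≤ d) (h : ∀ m : ℤ, d ≤ |t - m|) :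
    |cos (π * t)| ≤ exp (-(2 * d ^ 2)) := by
  set m := round t with hm
  set s := t - m with hs
  have hs1 : |s| ≤ 1 / 2 := abs_sub_round t
  have hs2 : d ≤ |s| := h m
  have e1 : |cos (π * t)| = |cos (π * s)| := by
    have : π * t = π * s + m * π := by rw [hs]; ring
    rw [this, Real.cos_add_int_mul_pi, abs_mul, abs_zpow]
    simp
  rw [e1]
  have h2 : 2 * |s| ≤ |sin (π * s)| := by
    have h3 : |sin (π * s)| = sin (π * |s|) := by
      rcases le_total 0 s with h0 | h0
      · rw [abs_of_nonneg h0, abs_of_nonneg]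
        apply Real.sin_nonneg_of_nonneg_of_le_pi (by positivity)
        rw [abs_of_nonneg h0] at hs1
        nlinarith [Real.pi_pos]
      · rw [abs_of_nonpos h0]
        have e : π * -s = -(π * s) := by ring
        rw [e, Real.sin_neg, abs_of_nonpos]
        have h4 : 0 ≤ sin (-(π * s)) := by
          apply Real.sin_nonneg_of_nonneg_of_le_pi
          · nlinarith [Real.pi_pos]
          · rw [abs_of_nonpos h0] at hs1
            nlinarith [Real.pi_pos]
        rw [Real.sin_neg] at h4
        linarith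
    rw [h3]
    have h4 : 2 / π * (π * |s|) ≤ sin (π * |s|) := by
      apply Real.mul_le_sin (by positivity)
      nlinarith [Real.pi_pos]
    have h5 : 2 / π * (π * |s|) = 2 * |s| := by field_simp
    linarith
  have h3 : cos (π * s) ^ 2 ≤ exp (-(2 * d ^ 2)) ^ 2 := by
    have h4 : cos (π * s) ^ 2 = 1 - sin (π * s) ^ 2 := by
      rw [Real.sin_sq]; ring
    have h5 : (2 * |s|) ^ 2 ≤ sin (π * s) ^ 2 := by
      rw [← sq_abs (sin (π * s))]
      exact pow_le_pow_left₀ (by positivity) h2 2
    have h6 : d ^ 2 ≤ |s| ^ 2 := pow_le_pow_left₀ hd hs2 2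
    have h7 : 1 - 4 * d ^ 2 ≤ exp (-(4 * d ^ 2)) := by
      have := Real.add_one_le_exp (-(4 * d ^ 2))
      linarith
    have h8 : exp (-(2 * d ^ 2)) ^ 2 = exp (-(4 * d ^ 2)) := by
      rw [← Real.exp_nat_mul]
      congr 1
      push_cast
      ring
    rw [h8, h4]
    nlinarith
  have h4 : |cos (π * s)| ^ 2 ≤ exp (-(2 * d ^ 2)) ^ 2 := by
    rw [sq_abs]; exact h3
  exact (abs_le_of_sq_le_sq' h4 (Real.exp_pos _).le).2

/-- the integer `P * R S` -/
def num (P : ℕ) (S : Finset ℕ) : ℕ := ∑ n ∈ S, P / n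

lemma R_eq {P : ℕ} (hP : 0 < P) {S : Finset ℕ} (h : ∀ n ∈ S, n ∣ P) :
    R S = (num P S : ℝ) / P := by
  have hPr : (P : ℝ) ≠ 0 := by exact_mod_cast hP.ne'
  unfold R num
  rw [Nat.cast_sum, Finset.sum_div]
  refine Finset.sum_congr rfl fun n hn => ?_
  have hn0 : n ≠ 0 := by
    rintro rfl
    have := h 0 hn
    rw [zero_dvd_iff] at this
    omega
  have hn0' : (n : ℝ) ≠ 0 := by exact_mod_cast hn0
  rw [Nat.cast_div (h n hn) hn0']
  field_simp

open Classical in
/-- the elements of `B` without a multiple at distance at most `L` from `h` -/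
noncomputable def far (B : Finset ℕ) (L : ℝ) (h : ℕ) : Finset ℕ :=
  B.filter (fun n : ℕ => ∀ x : ℤ, (n : ℤ) ∣ x → L < |(x : ℝ) - h|)

theorem circle (B : Finset ℕ) (P : ℕ) (M N L : ℝ) (T : ℕ) (hP : 0 < P) (hM : 1 ≤ M)
    (hL : 0 < L) (hB : ∀ n ∈ B, M ≤ (n : ℝ) ∧ (n : ℝ) ≤ N ∧ n ∣ P)
    (h1 : 2 - 1 / M ≤ R B) (h2 : R B < 2)
    (hT : ∀ h : ℕ, M / 2 < h → (h : ℝ) < P - M / 2 → T ≤ (far B L h).card)
    (hPT : 2 * (P : ℝ) ≤ exp (2 * (L / N) ^ 2 * T))
    (hPB : 2 * (P : ℝ) < 2 ^ B.card) :
    ∃ S ⊆ B, ∑ n ∈ S, (1 : ℚ) / n = 1 := by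
  classical
  have hPr : (0 : ℝ) < P := by exact_mod_cast hP
  have hM0 : 0 < M := by linarith
  have hBpos : ∀ n ∈ B, (0 : ℝ) < n := fun n hn => by
    have := (hB n hn).1
    linarith
  set G : ℝ → ℝ := fun h => ∑ S ∈ B.powerset, cos (2 * π * h * R S) with hG
  have hGe : ∀ h : ℝ, G h = 2 ^ B.card * (∏ n ∈ B, cos (π * h / n)) * cos (π * h * R B) := by
    intro h
    have := cos_sum B h 0
    simp only [zero_add] at this
    exact this
  have hpow : (0 : ℝ) < 2 ^ B.card := by positivity
  -- small `h`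
  have hmaj : ∀ h : ℕ, (h : ℝ) ≤ M / 2 → 0 ≤ G h := by
    intro h hh
    rw [hGe]
    apply mul_nonneg (mul_nonneg hpow.le _) _
    · apply Finset.prod_nonneg
      intro n hn
      have hn1 := (hB n hn).1
      have hn0 := hBpos n hn
      apply Real.cos_nonneg_of_neg_pi_div_two_le_of_le
      · have : 0 ≤ π * h / n := by positivity
        linarith [Real.pi_pos]
      · rw [div_le_iff₀ hn0]
        nlinarith [Real.pi_pos]
    · have e : π * h * R B = (h : ℝ) * (2 * π) - π * h * (2 - R B) := by ring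
      have hδ : 0 ≤ 2 - R B := by linarith
      have hδ2 : 2 - R B ≤ 1 / M := by linarith
      have hδ3 : (h : ℝ) * (2 - R B) ≤ 1 / 2 := by
        calc (h : ℝ) * (2 - R B) ≤ M / 2 * (1 / M) := by gcongr
          _ = 1 / 2 := by field_simp
      have hδ4 : 0 ≤ (h : ℝ) * (2 - R B) := by positivity
      rw [e, Real.cos_nat_mul_two_pi_sub]
      apply Real.cos_nonneg_of_neg_pi_div_two_le_of_le
      · nlinarith [Real.pi_pos]
      · nlinarith [Real.pi_pos]
  have hsymm : ∀ g : ℝ, G (P - g) = G g := by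
    intro g
    simp only [hG]
    refine Finset.sum_congr rfl fun S hS => ?_
    have hS' : ∀ n ∈ S, n ∣ P := fun n hn => (hB n (Finset.mem_powerset.1 hS hn)).2.2
    rw [R_eq hP hS']
    have e : 2 * π * ((P : ℝ) - g) * ((num P S : ℝ) / P) =
        (num P S : ℝ) * (2 * π) - 2 * π * g * ((num P S : ℝ) / P) := by
      field_simp
    rw [e, Real.cos_nat_mul_two_pi_sub]
  have hmin : ∀ h : ℕ, M / 2 < h → (h : ℝ) < P - M / 2 → -(2 ^ B.card / (2 * P)) ≤ G h := by
    intro h hh1 hh2
    have hab : |G h| ≤ 2 ^ B.card / (2 * P) := by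
      rw [hGe, abs_mul, abs_mul, abs_of_pos hpow]
      have hc : |cos (π * h * R B)| ≤ 1 := Real.abs_cos_le_one _
      have hp : |∏ n ∈ B, cos (π * h / n)| ≤ 1 / (2 * P) := by
        rw [Finset.abs_prod]
        have hsub : far B L h ⊆ B := Finset.filter_subset _ _
        have h3 : ∏ n ∈ B, |cos (π * h / n)| ≤ ∏ n ∈ far B L h, |cos (π * h / n)| := by
          rw [← Finset.prod_sdiff hsub]
          apply mul_le_of_le_one_left (Finset.prod_nonneg fun n _ => abs_nonneg _)
          exact Finset.prod_le_one (fun n _ => abs_nonneg _) fun n _ => Real.abs_cos_le_one _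
        have h4 : ∏ n ∈ far B L h, |cos (π * h / n)| ≤
            ∏ _n ∈ far B L h, exp (-(2 * (L / N) ^ 2)) := by
          apply Finset.prod_le_prod (fun n _ => abs_nonneg _)
          intro n hn
          have hnB := hsub hn
          have hn0 := hBpos n hnB
          have hnN := (hB n hnB).2.1
          have hN0 : 0 < N := hn0.trans_le hnN
          rw [mul_div_assoc]
          apply abs_cos_le (by positivity)
          intro m
          have hfar : L < |(((n : ℤ) * m : ℤ) : ℝ) - h| := by
            have := (Finset.mem_filter.1 hn).2 ((n : ℤ) * m) ⟨m, rfl⟩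
            exact this
          have e : |(((n : ℤ) * m : ℤ) : ℝ) - h| = n * |(h : ℝ) / n - m| := by
            rw [← abs_of_pos hn0, ← abs_mul, abs_of_pos hn0, abs_sub_comm]
            congr 1
            push_cast
            field_simp
          rw [e] at hfar
          calc L / N ≤ L / n := by gcongr
            _ ≤ |(h : ℝ) / n - m| := by
              rw [div_le_iff₀ hn0]
              linarith
        have h5 : ∏ _n ∈ far B L h, exp (-(2 * (L / N) ^ 2)) =
            exp (-(2 * (L / N) ^ 2 * (far B L h).card)) := by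
          rw [Finset.prod_const, ← Real.exp_nat_mul]
          congr 1
          ring
        have h6 : exp (-(2 * (L / N) ^ 2 * (far B L h).card)) ≤ 1 / (2 * P) := by
          rw [Real.exp_neg, one_div]
          apply inv_anti₀ (by positivity)
          refine hPT.trans (Real.exp_le_exp.2 ?_)
          have : (T : ℝ) ≤ (far B L h).card := by exact_mod_cast hT h hh1 hh2
          gcongr
        linarith
      calc 2 ^ B.card * |∏ n ∈ B, cos (π * h / n)| * |cos (π * h * R B)|
          ≤ 2 ^ B.card * (1 / (2 * P)) * 1 := by gcongr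
        _ = 2 ^ B.card / (2 * P) := by ring
    exact (abs_le.1 hab).1
  have hall : ∀ h ∈ (range P).erase 0, -(2 ^ B.card / (2 * P)) ≤ G (h : ℕ) := by
    intro h hh
    rw [Finset.mem_erase, Finset.mem_range] at hh
    have hneg : -((2 : ℝ) ^ B.card / (2 * P)) ≤ 0 := by
      have : 0 ≤ (2 : ℝ) ^ B.card / (2 * P) := by positivity
      linarith
    rcases le_or_gt (h : ℝ) (M / 2) with h3 | h3
    · exact hneg.trans (hmaj h h3)
    · rcases lt_or_ge (h : ℝ) (P - M / 2) with h4 | h4
      · exact hmin h h3 h4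
      · have h5 : G h = G ((P - h : ℕ) : ℝ) := by
          rw [← hsymm ((P - h : ℕ) : ℝ)]
          congr 1
          rw [Nat.cast_sub hh.2.le]
          ring
        rw [h5]
        apply hneg.trans (hmaj _ _)
        rw [Nat.cast_sub hh.2.le]
        linarith
  have hG0 : G ((0 : ℕ) : ℝ) = 2 ^ B.card := by
    simp [hG]
  have hsum : (2 : ℝ) ^ B.card / 2 ≤ ∑ h ∈ range P, G (h : ℕ) := by
    rw [← Finset.add_sum_erase (range P) (fun h : ℕ => G (h : ℝ)) (Finset.mem_range.2 hP), hG0]
    have h3 : ∑ h ∈ (range P).erase 0, -((2 : ℝ) ^ B.card / (2 * P)) ≤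
        ∑ h ∈ (range P).erase 0, G (h : ℕ) := Finset.sum_le_sum hall
    rw [Finset.sum_const, nsmul_eq_mul] at h3
    have h4 : (((range P).erase 0).card : ℝ) ≤ P := by
      have : ((range P).erase 0).card ≤ (range P).card := Finset.card_erase_le
      rw [Finset.card_range] at this
      exact_mod_cast this
    have h5 : (((range P).erase 0).card : ℝ) * ((2 : ℝ) ^ B.card / (2 * P)) ≤ 2 ^ B.card / 2 := by
      calc (((range P).erase 0).card : ℝ) * ((2 : ℝ) ^ B.card / (2 * P))
          ≤ P * ((2 : ℝ) ^ B.card / (2 * P)) := by gcongr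
        _ = 2 ^ B.card / 2 := by field_simp
    linarith
  have hsum2 : ∑ h ∈ range P, G (h : ℕ) =
      P * ((B.powerset.filter (fun S => P ∣ num P S)).card : ℝ) := by
    simp only [hG]
    rw [Finset.sum_comm]
    have : ∀ S ∈ B.powerset, ∑ h ∈ range P, cos (2 * π * (h : ℝ) * R S) =
        if P ∣ num P S then (P : ℝ) else 0 := by
      intro S hS
      have hS' : ∀ n ∈ S, n ∣ P := fun n hn => (hB n (Finset.mem_powerset.1 hS hn)).2.2
      rw [R_eq hP hS']
      exact cos_geo hP _
    rw [Finset.sum_congr rfl this, ← Finset.sum_filter, Finset.sum_const, nsmul_eq_mul, mul_comm]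
  have hcard : 1 < (B.powerset.filter (fun S => P ∣ num P S)).card := by
    by_contra hcon
    push Not at hcon
    have h3 : ((B.powerset.filter (fun S => P ∣ num P S)).card : ℝ) ≤ 1 := by exact_mod_cast hcon
    rw [hsum2] at hsum
    nlinarith
  obtain ⟨S, hS, hS0⟩ := Finset.exists_mem_ne hcard ∅
  rw [Finset.mem_filter, Finset.mem_powerset] at hS
  obtain ⟨hSB, m, hm⟩ := hS
  have hS' : ∀ n ∈ S, n ∣ P := fun n hn => (hB n (hSB hn)).2.2
  have hRS : R S = m := by
    rw [R_eq hP hS', hm]
    push_cast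
    field_simp
  have hpos : 0 < R S := by
    obtain ⟨n, hn⟩ := Finset.nonempty_iff_ne_empty.2 hS0
    refine Finset.sum_pos (fun n hn => ?_) ⟨n, hn⟩
    have := hBpos n (hSB hn)
    positivity
  have hlt : R S < 2 := (R_mono hSB).trans_lt h2
  have hm1 : m = 1 := by
    rw [hRS] at hpos hlt
    have h3 : 0 < m := by exact_mod_cast hpos
    have h4 : m < 2 := by exact_mod_cast hlt
    omega
  refine ⟨S, hSB, ?_⟩
  have h3 : ((∑ n ∈ S, (1 : ℚ) / n : ℚ) : ℝ) = 1 := by
    push_cast
    have := hRS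
    unfold R at this
    rw [this, hm1]
    simp
  exact_mod_cast h3

end Pool.Agent.TH941.UF
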