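import Mathlib
import Pool.Agent.TH941.UF.Circle

set_option autoImplicit false

/-!
# Rich subsets
-/

namespace Pool.Agent.TH941.UF

open Finset

/-- the elements of `B` divisible by `q` -/
def mult (B : Finset ℕ) (q : ℕ) : Finset ℕ := B.filter (fun n => q ∣ n)

/-- the primes dividing some element of `B` -/
def Q (B : Finset ℕ) : Finset ℕ := B.biUnion Nat.primeFactors

/-- every prime dividing an element of `B` has many multiples in `B` -/
def Rich (ε : ℕ → ℝ) (B : Finset ℕ) : Prop := ∀ q ∈ Q B, ε q ≤ R (mult B q)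

lemma Q_mono {B C : Finset ℕ} (h : B ⊆ C) : Q B ⊆ Q C := Finset.biUnion_subset_biUnion_of_subset_left _ h

lemma R_sdiff {B C : Finset ℕ} (h : C ⊆ B) : R (B \ C) = R B - R C := by
  unfold R
  rw [← Finset.sum_sdiff h]
  ring

lemma R_erase {B : Finset ℕ} {n : ℕ} (h : n ∈ B) : R (B.erase n) = R B - 1 / n := by
  unfold R
  rw [← Finset.add_sum_erase B _ h]
  ring

lemma R_le_sum_mult {B Q' : Finset ℕ} (h : ∀ n ∈ B, ∃ q ∈ Q', q ∣ n) :
    R B ≤ ∑ q ∈ Q', R (mult B q) := by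
  classical
  have e : ∑ q ∈ Q', R (mult B q) = ∑ n ∈ B, ∑ q ∈ Q', if q ∣ n then (1 : ℝ) / n else 0 := by
    rw [Finset.sum_comm]
    refine Finset.sum_congr rfl fun q _ => ?_
    unfold R mult
    rw [Finset.sum_filter]
  rw [e]
  unfold R
  refine Finset.sum_le_sum fun n hn => ?_
  obtain ⟨q, hq, hqn⟩ := h n hn
  have h2 : (if q ∣ n then (1 : ℝ) / n else 0) ≤ ∑ p ∈ Q', if p ∣ n then (1 : ℝ) / n else 0 := by
    refine Finset.single_le_sum (f := fun q => if q ∣ n then (1 : ℝ) / n else 0) ?_ hq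
    intro p _
    positivity
  rw [if_pos hqn] at h2
  exact h2

lemma exists_rich (A : Finset ℕ) (ε : ℕ → ℝ) (hε : ∀ q, 0 ≤ ε q)
    (h1 : 2 + ∑ q ∈ Q A, ε q ≤ R A) : ∃ B ⊆ A, 2 ≤ R B ∧ Rich ε B := by
  classical
  obtain ⟨B, hB, hmax⟩ := Finset.exists_max_image A.powerset
    (fun B => R B - ∑ q ∈ Q B, ε q) ⟨∅, Finset.empty_mem_powerset A⟩
  rw [Finset.mem_powerset] at hB
  refine ⟨B, hB, ?_, ?_⟩
  · have h2 := hmax A (Finset.mem_powerset_self A)
    have h3 : 0 ≤ ∑ q ∈ Q B, ε q := Finset.sum_nonneg fun q _ => hε q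
    linarith
  · intro q hq
    by_contra hcon
    push Not at hcon
    have hsub : mult B q ⊆ B := Finset.filter_subset _ _
    have h2 := hmax (B \ mult B q) (Finset.mem_powerset.2 (Finset.sdiff_subset.trans hB))
    rw [R_sdiff hsub] at h2
    have h3 : Q (B \ mult B q) ⊆ (Q B).erase q := by
      intro p hp
      rw [Finset.mem_erase]
      refine ⟨?_, Q_mono Finset.sdiff_subset hp⟩
      rintro rfl
      rw [Q, Finset.mem_biUnion] at hp
      obtain ⟨n, hn, hpn⟩ := hp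
      rw [Finset.mem_sdiff] at hn
      exact hn.2 (Finset.mem_filter.2 ⟨hn.1, Nat.dvd_of_mem_primeFactors hpn⟩)
    have h4 : ∑ p ∈ Q (B \ mult B q), ε p ≤ ∑ p ∈ (Q B).erase q, ε p :=
      Finset.sum_le_sum_of_subset_of_nonneg h3 fun p _ _ => hε p
    have h5 := Finset.add_sum_erase (Q B) ε hq
    linarith

theorem prune (A : Finset ℕ) (M : ℝ) (ε : ℕ → ℝ) (hM : 0 < M) (hA : ∀ n ∈ A, M ≤ (n : ℝ))
    (hε : ∀ q, 0 ≤ ε q) (h1 : 2 + ∑ q ∈ Q A, ε q ≤ R A)
    (h2 : ∑ q ∈ Q A, (ε q + 1 / M) < 2) :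
    ∃ B ⊆ A, 2 - 1 / M ≤ R B ∧ R B < 2 ∧ Rich ε B := by
  classical
  obtain ⟨B₁, hB₁, h3, h4⟩ := exists_rich A ε hε h1
  obtain ⟨B, hB, hmin⟩ := Finset.exists_min_image
    (A.powerset.filter (fun B => 2 ≤ R B ∧ Rich ε B)) Finset.card
    ⟨B₁, Finset.mem_filter.2 ⟨Finset.mem_powerset.2 hB₁, h3, h4⟩⟩
  rw [Finset.mem_filter, Finset.mem_powerset] at hB
  obtain ⟨hBA, hB2, hBr⟩ := hB
  have key : ∃ n ∈ B, ∀ q ∈ n.primeFactors, ε q + 1 / M ≤ R (mult B q) := by
    by_contra hcon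
    push Not at hcon
    set Q' := (Q B).filter (fun q => R (mult B q) < ε q + 1 / M) with hQ'
    have h5 : R B ≤ ∑ q ∈ Q', R (mult B q) := by
      apply R_le_sum_mult
      intro n hn
      obtain ⟨q, hq, hlt⟩ := hcon n hn
      exact ⟨q, Finset.mem_filter.2 ⟨Finset.mem_biUnion.2 ⟨n, hn, hq⟩, hlt⟩,
        Nat.dvd_of_mem_primeFactors hq⟩
    have h6 : ∑ q ∈ Q', R (mult B q) ≤ ∑ q ∈ Q', (ε q + 1 / M) :=
      Finset.sum_le_sum fun q hq => (Finset.mem_filter.1 hq).2.le
    have h7 : ∑ q ∈ Q', (ε q + 1 / M) ≤ ∑ q ∈ Q A, (ε q + 1 / M) := by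
      apply Finset.sum_le_sum_of_subset_of_nonneg
      · exact (Finset.filter_subset _ _).trans (Q_mono hBA)
      · intro q _ _
        have := hε q
        positivity
    linarith
  obtain ⟨n, hn, hq⟩ := key
  have hnM := hA n (hBA hn)
  have hn0 : (0 : ℝ) < n := hM.trans_le hnM
  have hinv : 1 / (n : ℝ) ≤ 1 / M := one_div_le_one_div_of_le hM hnM
  have hrich : Rich ε (B.erase n) := by
    intro q hqQ
    have hqB : q ∈ Q B := Q_mono (Finset.erase_subset _ _) hqQ
    by_cases hdvd : q ∣ n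
    · have hqp : q.Prime := by
        rw [Q, Finset.mem_biUnion] at hqB
        obtain ⟨m, _, hm⟩ := hqB
        exact Nat.prime_of_mem_primeFactors hm
      have hqf : q ∈ n.primeFactors := by
        rw [Nat.mem_primeFactors]
        refine ⟨hqp, hdvd, ?_⟩
        rintro rfl
        simp at hn0
      have e : mult (B.erase n) q = (mult B q).erase n := by
        unfold mult
        rw [Finset.filter_erase]
      have hmem : n ∈ mult B q := Finset.mem_filter.2 ⟨hn, hdvd⟩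
      rw [e, R_erase hmem]
      have := hq q hqf
      linarith
    · have e : mult (B.erase n) q = mult B q := by
        unfold mult
        rw [Finset.filter_erase, Finset.erase_eq_of_notMem]
        simp [hdvd]
      rw [e]
      exact hBr q hqB
  refine ⟨B.erase n, (Finset.erase_subset _ _).trans hBA, ?_, ?_, hrich⟩
  · rw [R_erase hn]
    linarith
  · by_contra hcon
    push Not at hcon
    have h5 := hmin (B.erase n) (Finset.mem_filter.2
      ⟨Finset.mem_powerset.2 ((Finset.erase_subset _ _).trans hBA), hcon, hrich⟩)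
    have h6 := Finset.card_erase_lt_of_mem hn
    omega

end Pool.Agent.TH941.UF
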