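import Mathlib
import Pool.Agent.TH941.UF.Prune

set_option autoImplicit false

/-!
# Product sets

`X` is the set of the products of one prime from each of `k` classes `P i` of small primes and one
prime from each of three classes `Q j` of large primes.
-/

namespace Pool.Agent.TH941.UF

open Finset

variable {k m : ℕ}

/-- the product of the values of `f` -/
def pp (f : Fin k → ℕ) : ℕ := ∏ i, f i

/-- the weight `∏ 1 / f i` -/
noncomputable def w (f : Fin k → ℕ) : ℝ := ∏ i, (1 : ℝ) / (f i : ℝ)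

lemma w_eq (f : Fin k → ℕ) : w f = 1 / (pp f : ℝ) := by
  unfold w pp
  rw [Nat.cast_prod, Finset.prod_div_distrib]
  simp

lemma w_nonneg (f : Fin k → ℕ) : 0 ≤ w f := Finset.prod_nonneg fun i _ => by positivity

lemma sum_w (F : Fin k → Finset ℕ) : ∑ f ∈ Fintype.piFinset F, w f = ∏ i, R (F i) := by
  unfold w R
  rw [Finset.prod_univ_sum]

/-- the set of products -/
def XX (P : Fin k → Finset ℕ) (Q : Fin m → Finset ℕ) : Finset ℕ :=
  (Fintype.piFinset P ×ˢ Fintype.piFinset Q).image (fun x => pp x.1 * pp x.2)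

/-- the classes consist of primes and are pairwise disjoint -/
structure Cls (P : Fin k → Finset ℕ) (Q : Fin m → Finset ℕ) : Prop where
  hP : ∀ i, ∀ p ∈ P i, p.Prime
  hQ : ∀ j, ∀ p ∈ Q j, p.Prime
  hPP : ∀ i i' p, p ∈ P i → p ∈ P i' → i = i'
  hQQ : ∀ j j' p, p ∈ Q j → p ∈ Q j' → j = j'
  hPQ : ∀ i j p, p ∈ P i → p ∈ Q j → False

lemma dvd_pp {P : Fin k → Finset ℕ} (hP : ∀ i, ∀ p ∈ P i, p.Prime) {f : Fin k → ℕ}
    (hf : f ∈ Fintype.piFinset P) {q : ℕ} (hq : q.Prime) (h : q ∣ pp f) : ∃ i, q = f i := by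
  unfold pp at h
  rw [hq.prime.dvd_finsetProd_iff] at h
  obtain ⟨i, _, hi⟩ := h
  refine ⟨i, ?_⟩
  rw [Fintype.mem_piFinset] at hf
  exact (Nat.prime_dvd_prime_iff_eq hq (hP i _ (hf i))).1 hi

lemma f_dvd_pp (f : Fin k → ℕ) (i : Fin k) : f i ∣ pp f := Finset.dvd_prod_of_mem f (Finset.mem_univ i)

lemma pp_pos {P : Fin k → Finset ℕ} (hP : ∀ i, ∀ p ∈ P i, p.Prime) {f : Fin k → ℕ}
    (hf : f ∈ Fintype.piFinset P) : 0 < pp f := by
  rw [Fintype.mem_piFinset] at hf
  exact Finset.prod_pos fun i _ => (hP i _ (hf i)).pos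

lemma inj {P : Fin k → Finset ℕ} {Q : Fin m → Finset ℕ} (H : Cls P Q) :
    Set.InjOn (fun x : (Fin k → ℕ) × (Fin m → ℕ) => pp x.1 * pp x.2)
      ((Fintype.piFinset P ×ˢ Fintype.piFinset Q : Finset _) : Set _) := by
  rintro ⟨f, g⟩ h1 ⟨f', g'⟩ h2 h
  simp only at h
  rw [Finset.mem_coe, Finset.mem_product] at h1 h2
  obtain ⟨hf, hg⟩ := h1
  obtain ⟨hf', hg'⟩ := h2
  simp only at hf hg hf' hg'
  have hfm := Fintype.mem_piFinset.1 hf
  have hgm := Fintype.mem_piFinset.1 hg
  have hfm' := Fintype.mem_piFinset.1 hf'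
  have hgm' := Fintype.mem_piFinset.1 hg'
  have e1 : f = f' := by
    funext i
    have hp := H.hP i _ (hfm i)
    have hd : f i ∣ pp f' * pp g' := by
      rw [← h]
      exact (f_dvd_pp f i).mul_right _
    rcases hp.dvd_mul.1 hd with h3 | h3
    · obtain ⟨i', hi'⟩ := dvd_pp H.hP hf' hp h3
      have : i = i' := H.hPP i i' (f i) (hfm i) (by rw [hi']; exact hfm' i')
      rw [hi', this]
    · obtain ⟨j, hj⟩ := dvd_pp H.hQ hg' hp h3
      exact (H.hPQ i j (f i) (hfm i) (by rw [hj]; exact hgm' j)).elim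
  have e2 : g = g' := by
    funext j
    have hp := H.hQ j _ (hgm j)
    have hd : g j ∣ pp f' * pp g' := by
      rw [← h]
      exact (f_dvd_pp g j).mul_left _
    rcases hp.dvd_mul.1 hd with h3 | h3
    · obtain ⟨i, hi⟩ := dvd_pp H.hP hf' hp h3
      exact (H.hPQ i j (g j) (by rw [hi]; exact hfm' i) (hgm j)).elim
    · obtain ⟨j', hj'⟩ := dvd_pp H.hQ hg' hp h3
      have : j = j' := H.hQQ j j' (g j) (hgm j) (by rw [hj']; exact hgm' j')
      rw [hj', this]
  rw [e1, e2]

lemma R_XX {P : Fin k → Finset ℕ} {Q : Fin m → Finset ℕ} (H : Cls P Q) :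
    R (XX P Q) = (∏ i, R (P i)) * ∏ j, R (Q j) := by
  unfold XX
  rw [← sum_w, ← sum_w, Finset.sum_mul_sum, ← Finset.sum_product']
  unfold R
  rw [Finset.sum_image (inj H)]
  refine Finset.sum_congr rfl fun x _ => ?_
  rw [w_eq, w_eq]
  push_cast
  rw [one_div_mul_one_div]

/-- the reciprocal sum of the elements of `X` divisible by `q` -/
noncomputable def V (P : Fin k → Finset ℕ) (Q : Fin m → Finset ℕ) (q : ℕ) : ℝ :=
  ∑ g ∈ Fintype.piFinset Q, ∑ f ∈ (Fintype.piFinset P).filter (fun f => q ∣ pp f * pp g), w f * w g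

lemma V_nonneg (P : Fin k → Finset ℕ) (Q : Fin m → Finset ℕ) (q : ℕ) : 0 ≤ V P Q q :=
  Finset.sum_nonneg fun g _ => Finset.sum_nonneg fun f _ => mul_nonneg (w_nonneg f) (w_nonneg g)

lemma card_primes {P : Fin k → Finset ℕ} {Q : Fin m → Finset ℕ} (H : Cls P Q) (S : Finset ℕ)
    (hS : ∀ q ∈ S, q.Prime) {f : Fin k → ℕ} {g : Fin m → ℕ} (hf : f ∈ Fintype.piFinset P)
    (hg : g ∈ Fintype.piFinset Q) : (S.filter (fun q => q ∣ pp f * pp g)).card ≤ k + m := by
  classical
  have h1 : S.filter (fun q => q ∣ pp f * pp g) ⊆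
      (Finset.univ.image f) ∪ (Finset.univ.image g) := by
    intro q hq
    rw [Finset.mem_filter] at hq
    have hqp := hS q hq.1
    rw [Finset.mem_union, Finset.mem_image, Finset.mem_image]
    rcases hqp.dvd_mul.1 hq.2 with h3 | h3
    · obtain ⟨i, hi⟩ := dvd_pp H.hP hf hqp h3
      exact Or.inl ⟨i, Finset.mem_univ i, hi.symm⟩
    · obtain ⟨j, hj⟩ := dvd_pp H.hQ hg hqp h3
      exact Or.inr ⟨j, Finset.mem_univ j, hj.symm⟩
  refine (Finset.card_le_card h1).trans ((Finset.card_union_le _ _).trans ?_)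
  have h2 : (Finset.univ.image f).card ≤ k := by
    refine Finset.card_image_le.trans ?_
    simp
  have h3 : (Finset.univ.image g).card ≤ m := by
    refine Finset.card_image_le.trans ?_
    simp
  omega

lemma sum_V {P : Fin k → Finset ℕ} {Q : Fin m → Finset ℕ} (H : Cls P Q) (S : Finset ℕ)
    (hS : ∀ q ∈ S, q.Prime) : ∑ q ∈ S, V P Q q ≤ (k + m) * R (XX P Q) := by
  have e : ∑ q ∈ S, V P Q q = ∑ g ∈ Fintype.piFinset Q, ∑ f ∈ Fintype.piFinset P,
      ((S.filter (fun q => q ∣ pp f * pp g)).card : ℝ) * (w f * w g) := by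
    unfold V
    rw [Finset.sum_comm]
    refine Finset.sum_congr rfl fun g _ => ?_
    simp_rw [Finset.sum_filter]
    rw [Finset.sum_comm]
    refine Finset.sum_congr rfl fun f _ => ?_
    rw [← Finset.sum_filter, Finset.sum_const, nsmul_eq_mul]
  rw [e, R_XX H, ← sum_w, ← sum_w, Finset.sum_mul_sum, Finset.mul_sum, Finset.sum_comm]
  refine Finset.sum_le_sum fun f hf => ?_
  rw [Finset.mul_sum]
  refine Finset.sum_le_sum fun g hg => ?_
  have h1 : ((S.filter (fun q => q ∣ pp f * pp g)).card : ℝ) ≤ (k : ℝ) + m := by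
    exact_mod_cast card_primes H S hS hf hg
  exact mul_le_mul_of_nonneg_right h1 (mul_nonneg (w_nonneg f) (w_nonneg g))

lemma prod_le (F G : Fin k → Finset ℕ) (bad : Finset (Fin k)) (s : ℕ) (hs : s ≤ bad.card)
    (h1 : ∀ i, R (F i) ≤ R (G i)) (h2 : ∀ i ∈ bad, R (F i) ≤ 2 / 3 * R (G i)) :
    ∏ i, R (F i) ≤ (2 / 3) ^ s * ∏ i, R (G i) := by
  classical
  have h3 : ∏ i, R (F i) ≤ ∏ i, ((if i ∈ bad then (2 / 3 : ℝ) else 1) * R (G i)) := by
    apply Finset.prod_le_prod (fun i _ => R_nonneg _)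
    intro i _
    split_ifs with h
    · exact h2 i h
    · rw [one_mul]; exact h1 i
  rw [Finset.prod_mul_distrib] at h3
  have h4 : ∏ i : Fin k, (if i ∈ bad then (2 / 3 : ℝ) else 1) = (2 / 3) ^ bad.card := by
    rw [Finset.prod_ite_mem, Finset.univ_inter, Finset.prod_const]
  rw [h4] at h3
  have h5 : (2 / 3 : ℝ) ^ bad.card ≤ (2 / 3) ^ s :=
    pow_le_pow_of_le_one (by norm_num) (by norm_num) hs
  exact h3.trans (mul_le_mul_of_nonneg_right h5 (Finset.prod_nonneg fun i _ => R_nonneg _))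

/-- the classes with few primes dividing `x` -/
noncomputable def bad (P : Fin k → Finset ℕ) (x : ℤ) : Finset (Fin k) :=
  Finset.univ.filter (fun i => R ((P i).filter (fun p => (p : ℤ) ∣ x)) ≤ 2 / 3 * R (P i))

lemma find_x {P : Fin k → Finset ℕ} {Q : Fin m → Finset ℕ} (H : Cls P Q) {B : Finset ℕ}
    (hB : B ⊆ XX P Q) {L : ℝ} {h : ℕ} {q s : ℕ} (hq : q.Prime)
    (hL : ∀ g ∈ Fintype.piFinset Q, 2 * L < pp g)
    (hlt : (2 / 3) ^ s * V P Q q < R (mult (B \ far B L h) q)) :
    ∃ x : ℤ, |(x : ℝ) - h| ≤ L ∧ (q : ℤ) ∣ x ∧ (bad P x).card ≤ s := by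
  classical
  by_contra hcon
  push Not at hcon
  apply absurd hlt
  push Not
  set B' := mult (B \ far B L h) q with hB'
  have hB'mem : ∀ n ∈ B', n ∈ B ∧ (∃ x : ℤ, (n : ℤ) ∣ x ∧ |(x : ℝ) - h| ≤ L) ∧ q ∣ n := by
    intro n hn
    rw [hB', mult, Finset.mem_filter, Finset.mem_sdiff] at hn
    obtain ⟨⟨h1, h2⟩, h3⟩ := hn
    refine ⟨h1, ?_, h3⟩
    by_contra hcon2
    push Not at hcon2
    exact h2 (Finset.mem_filter.2 ⟨h1, hcon2⟩)
  -- bound by a sum over pairs
  have h1 : R B' ≤ ∑ g ∈ Fintype.piFinset Q,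
      ∑ f ∈ (Fintype.piFinset P).filter (fun f => pp f * pp g ∈ B'), w f * w g := by
    have e : ∑ g ∈ Fintype.piFinset Q,
        ∑ f ∈ (Fintype.piFinset P).filter (fun f => pp f * pp g ∈ B'), w f * w g =
        ∑ x ∈ (Fintype.piFinset P ×ˢ Fintype.piFinset Q).filter
          (fun x => pp x.1 * pp x.2 ∈ B'), w x.1 * w x.2 := by
      simp_rw [Finset.sum_filter]
      rw [Finset.sum_comm, Finset.sum_product]
    rw [e]
    have hinj := inj H
    have e2 : B' = ((Fintype.piFinset P ×ˢ Fintype.piFinset Q).filter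
          (fun x => pp x.1 * pp x.2 ∈ B')).image (fun x => pp x.1 * pp x.2) := by
      ext n
      rw [Finset.mem_image]
      constructor
      · intro hn
        have hnX := hB (hB'mem n hn).1
        rw [XX, Finset.mem_image] at hnX
        obtain ⟨x, hx, hxn⟩ := hnX
        exact ⟨x, Finset.mem_filter.2 ⟨hx, by rw [hxn]; exact hn⟩, hxn⟩
      · rintro ⟨x, hx, rfl⟩
        exact (Finset.mem_filter.1 hx).2
    have e3 : R B' = ∑ x ∈ (Fintype.piFinset P ×ˢ Fintype.piFinset Q).filter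
          (fun x => pp x.1 * pp x.2 ∈ B'), w x.1 * w x.2 := by
      conv_lhs => rw [e2]
      unfold R
      rw [Finset.sum_image]
      · refine Finset.sum_congr rfl fun x _ => ?_
        rw [w_eq, w_eq]
        push_cast
        rw [one_div_mul_one_div]
      · intro x hx y hy hxy
        exact hinj (Finset.mem_of_mem_filter x hx) (Finset.mem_of_mem_filter y hy) hxy
    exact e3.le
  refine h1.trans ?_
  unfold V
  rw [Finset.mul_sum]
  refine Finset.sum_le_sum fun g hg => ?_
  rw [← Finset.sum_mul, ← Finset.sum_mul, ← mul_assoc]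
  apply mul_le_mul_of_nonneg_right _ (w_nonneg g)
  set E := (Fintype.piFinset P).filter (fun f => pp f * pp g ∈ B') with hE
  rcases Finset.eq_empty_or_nonempty E with hE0 | ⟨f₀, hf₀⟩
  · rw [hE0, Finset.sum_empty]
    exact mul_nonneg (by positivity) (Finset.sum_nonneg fun f _ => w_nonneg f)
  obtain ⟨hf₀P, hf₀B⟩ := Finset.mem_filter.1 hf₀
  obtain ⟨-, ⟨x, hx1, hx2⟩, hqn⟩ := hB'mem _ hf₀B
  -- all elements of `E` divide `x`
  have hall : ∀ f ∈ E, ((pp f * pp g : ℕ) : ℤ) ∣ x := by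
    intro f hf
    obtain ⟨hfP, hfB⟩ := Finset.mem_filter.1 hf
    obtain ⟨-, ⟨y, hy1, hy2⟩, -⟩ := hB'mem _ hfB
    have hxy : x = y := by
      have hd1 : ((pp g : ℕ) : ℤ) ∣ x := (Int.natCast_dvd_natCast.2 (dvd_mul_left _ _)).trans hx1
      have hd2 : ((pp g : ℕ) : ℤ) ∣ y := (Int.natCast_dvd_natCast.2 (dvd_mul_left _ _)).trans hy1
      have hd := dvd_sub hd1 hd2
      have habs : |((x - y : ℤ) : ℝ)| < (pp g : ℝ) := by
        have h2 := hL g hg
        have h3 : |((x - y : ℤ) : ℝ)| ≤ 2 * L := by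
          push_cast
          have : (x : ℝ) - y = (x - h) - (y - h) := by ring
          rw [this]
          refine (abs_sub _ _).trans ?_
          linarith
        linarith
      have habs2 : |x - y| < ((pp g : ℕ) : ℤ) := by
        have : ((|x - y| : ℤ) : ℝ) < (((pp g : ℕ) : ℤ) : ℝ) := by
          push_cast
          push_cast at habs
          exact habs
        exact_mod_cast this
      have := Int.eq_zero_of_abs_lt_dvd hd habs2
      omega
    rw [hxy]
    exact hy1
  have hqx : (q : ℤ) ∣ x := (Int.natCast_dvd_natCast.2 hqn).trans hx1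
  have hbad := hcon x hx2 hqx
  have hEsub : ∀ f ∈ E, ∀ i, (f i : ℤ) ∣ x := by
    intro f hf i
    refine (Int.natCast_dvd_natCast.2 ?_).trans (hall f hf)
    exact (f_dvd_pp f i).mul_right _
  have hsubR : ∀ i, R ((P i).filter (fun p => (p : ℤ) ∣ x)) ≤ R (P i) :=
    fun i => R_mono (Finset.filter_subset _ _)
  by_cases hqg : q ∣ pp g
  · -- all `f` count
    have e1 : (Fintype.piFinset P).filter (fun f => q ∣ pp f * pp g) = Fintype.piFinset P := by
      rw [Finset.filter_true_of_mem]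
      intro f _
      exact hqg.mul_left _
    rw [e1, sum_w]
    have h2 : ∑ f ∈ E, w f ≤
        ∑ f ∈ Fintype.piFinset (fun i => (P i).filter (fun p : ℕ => (p : ℤ) ∣ x)), w f := by
      apply Finset.sum_le_sum_of_subset_of_nonneg
      · intro f hf
        rw [Fintype.mem_piFinset]
        intro i
        rw [Finset.mem_filter]
        exact ⟨Fintype.mem_piFinset.1 (Finset.mem_filter.1 hf).1 i, hEsub f hf i⟩
      · intro f _ _
        exact w_nonneg f
    refine h2.trans ?_
    rw [sum_w]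
    apply prod_le _ _ (bad P x) s hbad.le hsubR
    intro i hi
    exact (Finset.mem_filter.1 hi).2
  · have hfac : ∀ f ∈ Fintype.piFinset P, q ∣ pp f * pp g → ∃ i, q = f i := by
      intro f hf hd
      rcases hq.dvd_mul.1 hd with h3 | h3
      · exact dvd_pp H.hP hf hq h3
      · exact absurd h3 hqg
    obtain ⟨i₀, hi₀⟩ := hfac f₀ hf₀P hqn
    have hqi₀ : q ∈ P i₀ := by
      rw [hi₀]
      exact Fintype.mem_piFinset.1 hf₀P i₀
    have h2 : ∑ f ∈ E, w f ≤ ∑ f ∈ Fintype.piFinset (fun i => if i = i₀ then ({q} : Finset ℕ) else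
        (P i).filter (fun p : ℕ => (p : ℤ) ∣ x)), w f := by
      apply Finset.sum_le_sum_of_subset_of_nonneg
      · intro f hf
        obtain ⟨hfP, hfB⟩ := Finset.mem_filter.1 hf
        rw [Fintype.mem_piFinset]
        intro i
        split_ifs with h3
        · obtain ⟨i₁, hi₁⟩ := hfac f hfP (hB'mem _ hfB).2.2
          have : i₁ = i₀ := H.hPP i₁ i₀ q (by rw [hi₁]; exact Fintype.mem_piFinset.1 hfP i₁) hqi₀
          rw [Finset.mem_singleton, h3, ← this, hi₁]
        · rw [Finset.mem_filter]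
          exact ⟨Fintype.mem_piFinset.1 hfP i, hEsub f hf i⟩
      · intro f _ _
        exact w_nonneg f
    have h3 : ∑ f ∈ Fintype.piFinset (fun i => if i = i₀ then ({q} : Finset ℕ) else P i), w f ≤
        ∑ f ∈ (Fintype.piFinset P).filter (fun f => q ∣ pp f * pp g), w f := by
      apply Finset.sum_le_sum_of_subset_of_nonneg
      · intro f hf
        rw [Fintype.mem_piFinset] at hf
        have hfi₀ : f i₀ = q := by
          have := hf i₀
          rw [if_pos rfl, Finset.mem_singleton] at this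
          exact this
        rw [Finset.mem_filter, Fintype.mem_piFinset]
        refine ⟨fun i => ?_, ?_⟩
        · by_cases h4 : i = i₀
          · rw [h4, hfi₀]; exact hqi₀
          · have := hf i
            rw [if_neg h4] at this
            exact this
        · rw [← hfi₀]
          exact (f_dvd_pp f i₀).mul_right _
      · intro f _ _
        exact w_nonneg f
    refine h2.trans (le_trans ?_ (mul_le_mul_of_nonneg_left h3 (by positivity)))
    rw [sum_w, sum_w]
    apply prod_le _ _ ((bad P x).erase i₀) s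
    · have := Finset.pred_card_le_card_erase (s := bad P x) (a := i₀)
      omega
    · intro i
      split_ifs with h4
      · exact le_rfl
      · exact hsubR i
    · intro i hi
      rw [Finset.mem_erase] at hi
      rw [if_neg hi.1, if_neg hi.1]
      exact (Finset.mem_filter.1 hi.2).2

end Pool.Agent.TH941.UF
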