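import Mathlib
import Pool.Agent.TH941.UF.Prod

set_option autoImplicit false

/-!
# Minor arcs
-/

namespace Pool.Agent.TH941.UF

open Finset

variable {k m : ℕ}

lemma uniq {P : Fin k → Finset ℕ} {Q : Fin m → Finset ℕ} (H : Cls P Q) {L : ℝ} {h : ℕ} {s : ℕ}
    (hs : 2 * s < k)
    (hbig : ∀ i, ∀ E ⊆ P i, R (P i) / 3 < R E → 2 * L < ((∏ p ∈ E, p : ℕ) : ℝ))
    {x y : ℤ} (hx : |(x : ℝ) - h| ≤ L) (hy : |(y : ℝ) - h| ≤ L) (hbx : (bad P x).card ≤ s)
    (hby : (bad P y).card ≤ s) : x = y := by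
  classical
  have h1 : (bad P x ∪ bad P y).card < (Finset.univ : Finset (Fin k)).card := by
    have := Finset.card_union_le (bad P x) (bad P y)
    rw [Finset.card_univ, Fintype.card_fin]
    omega
  obtain ⟨i, -, hi⟩ := Finset.exists_mem_notMem_of_card_lt_card h1
  rw [Finset.mem_union, not_or] at hi
  obtain ⟨hix, hiy⟩ := hi
  have h2 : 2 / 3 * R (P i) < R ((P i).filter (fun p : ℕ => (p : ℤ) ∣ x)) := by
    by_contra hcon
    push Not at hcon
    exact hix (Finset.mem_filter.2 ⟨Finset.mem_univ i, hcon⟩)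
  have h3 : 2 / 3 * R (P i) < R ((P i).filter (fun p : ℕ => (p : ℤ) ∣ y)) := by
    by_contra hcon
    push Not at hcon
    exact hiy (Finset.mem_filter.2 ⟨Finset.mem_univ i, hcon⟩)
  set Dx := (P i).filter (fun p : ℕ => (p : ℤ) ∣ x) with hDx
  set Dy := (P i).filter (fun p : ℕ => (p : ℤ) ∣ y) with hDy
  have h4 : R (Dx ∪ Dy) + R (Dx ∩ Dy) = R Dx + R Dy := by
    unfold R
    exact Finset.sum_union_inter
  have h5 : R (Dx ∪ Dy) ≤ R (P i) :=
    R_mono (Finset.union_subset (Finset.filter_subset _ _) (Finset.filter_subset _ _))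
  have hEsub : Dx ∩ Dy ⊆ P i := Finset.inter_subset_left.trans (Finset.filter_subset _ _)
  have h6 := hbig i (Dx ∩ Dy) hEsub (by linarith)
  by_contra hne
  have hdvd : (∏ p ∈ Dx ∩ Dy, p) ∣ (x - y).natAbs := by
    apply Finset.prod_primes_dvd
    · intro p hp
      exact (H.hP i p (hEsub hp)).prime
    · intro p hp
      rw [Finset.mem_inter] at hp
      have hp1 : (p : ℤ) ∣ x := (Finset.mem_filter.1 hp.1).2
      have hp2 : (p : ℤ) ∣ y := (Finset.mem_filter.1 hp.2).2
      have := dvd_sub hp1 hp2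
      exact Int.natCast_dvd.1 this
  have hpos : 0 < (x - y).natAbs := Int.natAbs_pos.2 (sub_ne_zero.2 hne)
  have h7 := Nat.le_of_dvd hpos hdvd
  have h8 : (((x - y).natAbs : ℕ) : ℝ) ≤ 2 * L := by
    have e : (((x - y).natAbs : ℕ) : ℝ) = |((x - y : ℤ) : ℝ)| := by
      rw [Nat.cast_natAbs]
      push_cast
      rfl
    rw [e]
    push_cast
    have : (x : ℝ) - y = (x - h) - (y - h) := by ring
    rw [this]
    refine (abs_sub _ _).trans ?_
    linarith
  have h9 : ((∏ p ∈ Dx ∩ Dy, p : ℕ) : ℝ) ≤ (((x - y).natAbs : ℕ) : ℝ) := by exact_mod_cast h7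
  linarith

theorem minor {P : Fin k → Finset ℕ} {Qt : Fin m → Finset ℕ} (H : Cls P Qt) {B : Finset ℕ}
    (hB : B ⊆ XX P Qt) {M τ : ℝ} {T s : ℕ} (hM : 0 < M) (hBM : ∀ n ∈ B, M ≤ (n : ℝ))
    (hLg : ∀ g ∈ Fintype.piFinset Qt, M / 2 < pp g)
    (hbig : ∀ i, ∀ E ⊆ P i, R (P i) / 3 < R E → M / 2 < ((∏ p ∈ E, p : ℕ) : ℝ))
    (hs : 2 * s < k) (hrich : ∀ q ∈ Q B, (2 / 3) ^ s * V P Qt q + τ ≤ R (mult B q))
    (hT : (T : ℝ) ≤ τ * M) (hne : (Q B).Nonempty) (h : ℕ) (h1 : M / 2 < h)
    (h2 : (h : ℝ) < ((∏ q ∈ Q B, q : ℕ) : ℝ) - M / 2) : T ≤ (far B (M / 4) h).card := by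
  classical
  by_contra hcon
  push Not at hcon
  have hfar : R (far B (M / 4) h) < τ := by
    have hsub : far B (M / 4) h ⊆ B := Finset.filter_subset _ _
    have h3 : R (far B (M / 4) h) ≤ ((far B (M / 4) h).card : ℝ) * (1 / M) := by
      unfold R
      rw [← nsmul_eq_mul]
      apply Finset.sum_le_card_nsmul
      intro n hn
      exact one_div_le_one_div_of_le hM (hBM n (hsub hn))
    have h4 : ((far B (M / 4) h).card : ℝ) < T := by exact_mod_cast hcon
    calc R (far B (M / 4) h) ≤ ((far B (M / 4) h).card : ℝ) * (1 / M) := h3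
      _ < T * (1 / M) := by
        apply mul_lt_mul_of_pos_right h4
        positivity
      _ ≤ τ * M * (1 / M) := by gcongr
      _ = τ := by field_simp
  have hx : ∀ q ∈ Q B, ∃ x : ℤ, |(x : ℝ) - h| ≤ M / 4 ∧ (q : ℤ) ∣ x ∧ (bad P x).card ≤ s := by
    intro q hq
    have hqp : q.Prime := by
      rw [Q, Finset.mem_biUnion] at hq
      obtain ⟨n, _, hn⟩ := hq
      exact Nat.prime_of_mem_primeFactors hn
    apply find_x H hB hqp
    · intro g hg
      have := hLg g hg
      linarith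
    · have h3 := hrich q hq
      have h4 : R (mult B q) ≤ R (mult (B \ far B (M / 4) h) q) + R (far B (M / 4) h) := by
        have hsub : mult B q ⊆ mult (B \ far B (M / 4) h) q ∪ far B (M / 4) h := by
          intro n hn
          rw [mult, Finset.mem_filter] at hn
          rw [Finset.mem_union]
          by_cases hnf : n ∈ far B (M / 4) h
          · exact Or.inr hnf
          · left
            rw [mult, Finset.mem_filter, Finset.mem_sdiff]
            exact ⟨⟨hn.1, hnf⟩, hn.2⟩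
        refine (R_mono hsub).trans ?_
        have h5 : R (mult (B \ far B (M / 4) h) q ∪ far B (M / 4) h) +
            R (mult (B \ far B (M / 4) h) q ∩ far B (M / 4) h) =
            R (mult (B \ far B (M / 4) h) q) + R (far B (M / 4) h) := by
          unfold R
          exact Finset.sum_union_inter
        have h6 := R_nonneg (mult (B \ far B (M / 4) h) q ∩ far B (M / 4) h)
        linarith
      linarith
  obtain ⟨q₀, hq₀⟩ := hne
  obtain ⟨x, hx1, hx2, hx3⟩ := hx q₀ hq₀
  have hall : ∀ q ∈ Q B, (q : ℤ) ∣ x := by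
    intro q hq
    obtain ⟨y, hy1, hy2, hy3⟩ := hx q hq
    have : x = y := by
      apply uniq (L := M / 4) H hs _ hx1 hy1 hx3 hy3
      intro i E hE hR
      have := hbig i E hE hR
      linarith
    rw [this]
    exact hy2
  have hxh := abs_le.1 hx1
  have hxpos : 0 < x := by
    have : (0 : ℝ) < x := by linarith
    exact_mod_cast this
  have hdvd : (∏ q ∈ Q B, q) ∣ x.natAbs := by
    apply Finset.prod_primes_dvd
    · intro q hq
      rw [Q, Finset.mem_biUnion] at hq
      obtain ⟨n, _, hn⟩ := hq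
      exact (Nat.prime_of_mem_primeFactors hn).prime
    · intro q hq
      exact Int.natCast_dvd.1 (hall q hq)
  have h7 := Nat.le_of_dvd (Int.natAbs_pos.2 hxpos.ne') hdvd
  have h8 : ((∏ q ∈ Q B, q : ℕ) : ℝ) ≤ x := by
    have h9 : ((∏ q ∈ Q B, q : ℕ) : ℤ) ≤ x := by
      have : ((x.natAbs : ℕ) : ℤ) = x := Int.natAbs_of_nonneg hxpos.le
      rw [← this]
      exact_mod_cast h7
    exact_mod_cast h9
  linarith

end Pool.Agent.TH941.UF
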