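import Mathlib
import Pool.Agent.TH941.UF.Circle

set_option autoImplicit false

/-!
# Reciprocal sums of primes in long intervals
-/

namespace Pool.Agent.TH941.UF

open Finset Real

/-- the primes in `(a, b]` -/
def pr (a b : ℕ) : Finset ℕ := (Finset.Ioc a b).filter Nat.Prime

lemma mem_pr {a b p : ℕ} : p ∈ pr a b ↔ a < p ∧ p ≤ b ∧ p.Prime := by
  unfold pr
  rw [Finset.mem_filter, Finset.mem_Ioc, and_assoc]

lemma pr_union {a b c : ℕ} (h1 : a ≤ b) (h2 : b ≤ c) : pr a b ∪ pr b c = pr a c := by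
  ext p
  simp only [Finset.mem_union, mem_pr]
  constructor
  · rintro (⟨h3, h4, h5⟩ | ⟨h3, h4, h5⟩)
    · exact ⟨h3, h4.trans h2, h5⟩
    · exact ⟨h1.trans_lt h3, h4, h5⟩
  · rintro ⟨h3, h4, h5⟩
    rcases le_or_gt p b with h6 | h6
    · exact Or.inl ⟨h3, h6, h5⟩
    · exact Or.inr ⟨h6, h4, h5⟩

lemma R_pr_add {a b c : ℕ} (h1 : a ≤ b) (h2 : b ≤ c) : R (pr a b) + R (pr b c) = R (pr a c) := by
  rw [← pr_union h1 h2]
  unfold R
  rw [Finset.sum_union]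
  rw [Finset.disjoint_left]
  intro p hp hq
  rw [mem_pr] at hp hq
  omega

lemma pow_aux (i : ℕ) (hi : 10 ≤ i) : (i + 1) * 50 ≤ 2 ^ i := by
  obtain ⟨j, rfl⟩ := Nat.exists_eq_add_of_le hi
  clear hi
  induction j with
  | zero => norm_num
  | succ n ih =>
    have e : 2 ^ (10 + (n + 1)) = 2 * 2 ^ (10 + n) := by rw [← add_assoc, pow_succ]; ring
    rw [e]
    linarith

lemma theta_diff (i : ℕ) (hi : 10 ≤ i) :
    (4 : ℝ) ^ i ≤ Chebyshev.theta ((4 ^ (i + 1) : ℕ) : ℝ) - Chebyshev.theta ((4 ^ i : ℕ) : ℝ) := by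
  have h1 := Chebyshev.theta_ge (4 ^ (i + 1))
  have h2 := Chebyshev.theta_le_log4_mul_x (x := ((4 ^ i : ℕ) : ℝ)) (by positivity)
  have hlog4 : Real.log 4 = 2 * Real.log 2 := by
    rw [show (4 : ℝ) = 2 ^ 2 by norm_num, Real.log_pow]; norm_num
  have hl1 := Real.log_two_gt_d9
  have hl2 := Real.log_two_lt_d9
  have hsqrt : √((4 ^ (i + 1) : ℕ) : ℝ) = 2 * 2 ^ i := by
    rw [Real.sqrt_eq_iff_mul_self_eq (by positivity) (by positivity)]
    push_cast
    rw [pow_succ, show (4 : ℝ) = 2 * 2 by norm_num, mul_pow]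
    ring
  have hlog : Real.log ((4 ^ (i + 1) : ℕ) : ℝ) = (i + 1) * Real.log 4 := by
    push_cast
    rw [Real.log_pow]
    push_cast
    ring
  have hlog' : Real.log (((4 ^ (i + 1) : ℕ) : ℝ) + 1) ≤ (i + 2) * Real.log 4 := by
    have : ((4 ^ (i + 1) : ℕ) : ℝ) + 1 ≤ 4 ^ (i + 2) := by
      push_cast
      rw [pow_succ (4 : ℝ) (i + 1)]
      have : (1 : ℝ) ≤ 4 ^ (i + 1) := one_le_pow₀ (by norm_num)
      linarith
    calc Real.log (((4 ^ (i + 1) : ℕ) : ℝ) + 1) ≤ Real.log (4 ^ (i + 2)) :=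
          Real.log_le_log (by positivity) this
      _ = (i + 2) * Real.log 4 := by rw [Real.log_pow]; push_cast; ring
  rw [hsqrt, hlog, hlog4] at h1
  rw [hlog4] at hlog' h2
  generalize Chebyshev.theta ((4 ^ (i + 1) : ℕ) : ℝ) = X at h1 ⊢
  generalize Chebyshev.theta ((4 ^ i : ℕ) : ℝ) = Y at h2 ⊢
  generalize Real.log (((4 ^ (i + 1) : ℕ) : ℝ) + 1) = Z at h1 hlog'
  push_cast at h1 h2 hlog' ⊢
  have hp : ((i : ℝ) + 1) * 50 ≤ 2 ^ i := by exact_mod_cast pow_aux i hi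
  have h4 : (4 : ℝ) ^ i = 2 ^ i * 2 ^ i := by
    rw [show (4 : ℝ) = 2 * 2 by norm_num, mul_pow]
  rw [pow_succ (4 : ℝ) i] at h1
  have h2i : (1 : ℝ) ≤ 2 ^ i := one_le_pow₀ (by norm_num)
  have e1 : 2 * (2 * 2 ^ i) * ((↑i + 1) * (2 * Real.log 2)) ≤ 0.12 * 4 ^ i := by
    have : 2 * (2 * 2 ^ i) * ((↑i + 1) * (2 * Real.log 2)) =
        (2 ^ i * ((↑i + 1) * 50)) * (8 * Real.log 2 / 50) := by ring
    rw [this, h4]
    have h5 : (2 : ℝ) ^ i * ((↑i + 1) * 50) ≤ 2 ^ i * 2 ^ i := by gcongr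
    have h6 : 8 * Real.log 2 / 50 ≤ 0.12 := by linarith
    nlinarith [Real.log_pos one_lt_two]
  have e2 : (↑i + 2) * (2 * Real.log 2) ≤ 0.1 * 4 ^ i := by
    have h5 : ((i : ℝ) + 2) ≤ 2 * (i + 1) := by linarith [(Nat.cast_nonneg i : (0 : ℝ) ≤ i)]
    have h6 : (i : ℝ) + 2 ≤ 2 ^ i / 25 := by linarith
    have h7 : (2 : ℝ) ^ i ≤ 4 ^ i := by rw [h4]; nlinarith
    nlinarith
  have hpos : (0 : ℝ) < 4 ^ i := by positivity
  have e4 : 1.386 * (4 : ℝ) ^ i ≤ 4 ^ i * 4 * Real.log 2 - 2 * Real.log 2 * 4 ^ i := by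
    have : (4 : ℝ) ^ i * 4 * Real.log 2 - 2 * Real.log 2 * 4 ^ i = (2 * Real.log 2) * 4 ^ i := by
      ring
    rw [this]
    gcongr
    linarith
  linarith

lemma block (i : ℕ) (hi : 10 ≤ i) : 1 / (6 * ((i : ℝ) + 1)) ≤ R (pr (4 ^ i) (4 ^ (i + 1))) := by
  have h1 := theta_diff i hi
  have hle : 4 ^ i ≤ 4 ^ (i + 1) := Nat.pow_le_pow_right (by norm_num) (by omega)
  have e1 : Chebyshev.theta ((4 ^ (i + 1) : ℕ) : ℝ) - Chebyshev.theta ((4 ^ i : ℕ) : ℝ) =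
      ∑ p ∈ pr (4 ^ i) (4 ^ (i + 1)), Real.log p := by
    unfold Chebyshev.theta
    rw [Nat.floor_natCast, Nat.floor_natCast]
    have : (Finset.Ioc 0 (4 ^ (i + 1))).filter Nat.Prime =
        (Finset.Ioc 0 (4 ^ i)).filter Nat.Prime ∪ pr (4 ^ i) (4 ^ (i + 1)) := by
      ext p
      simp only [Finset.mem_union, mem_pr, Finset.mem_filter, Finset.mem_Ioc]
      constructor
      · rintro ⟨⟨h3, h4⟩, h5⟩
        rcases le_or_gt p (4 ^ i) with h6 | h6
        · exact Or.inl ⟨⟨h3, h6⟩, h5⟩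
        · exact Or.inr ⟨h6, h4, h5⟩
      · rintro (⟨⟨h3, h4⟩, h5⟩ | ⟨h3, h4, h5⟩)
        · exact ⟨⟨h3, h4.trans hle⟩, h5⟩
        · exact ⟨⟨by omega, h4⟩, h5⟩
    rw [this, Finset.sum_union]
    · ring
    · rw [Finset.disjoint_left]
      intro p hp hq
      rw [mem_pr] at hq
      rw [Finset.mem_filter, Finset.mem_Ioc] at hp
      omega
  rw [e1] at h1
  have hlog4 : Real.log 4 = 2 * Real.log 2 := by
    rw [show (4 : ℝ) = 2 ^ 2 by norm_num, Real.log_pow]; norm_num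
  have hl2 := Real.log_two_lt_d9
  have hi1 : (0 : ℝ) < (i : ℝ) + 1 := by positivity
  have h2 : ∑ p ∈ pr (4 ^ i) (4 ^ (i + 1)), Real.log p ≤
      ∑ p ∈ pr (4 ^ i) (4 ^ (i + 1)), (1 / (p : ℝ)) * (4 ^ (i + 1) * (((i : ℝ) + 1) * 1.4)) := by
    refine Finset.sum_le_sum fun p hp => ?_
    rw [mem_pr] at hp
    have hp0 : (0 : ℝ) < p := by exact_mod_cast hp.2.2.pos
    have hp1 : (p : ℝ) ≤ 4 ^ (i + 1) := by exact_mod_cast hp.2.1
    have h3 : Real.log p ≤ ((i : ℝ) + 1) * 1.4 := by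
      calc Real.log p ≤ Real.log (4 ^ (i + 1)) := Real.log_le_log hp0 hp1
        _ = ((i : ℝ) + 1) * Real.log 4 := by rw [Real.log_pow]; push_cast; ring
        _ ≤ ((i : ℝ) + 1) * 1.4 := by gcongr; rw [hlog4]; linarith
    have h4 : (1 : ℝ) ≤ (1 / (p : ℝ)) * 4 ^ (i + 1) := by
      rw [one_div, inv_mul_eq_div, one_le_div hp0]
      exact hp1
    calc Real.log p ≤ 1 * (((i : ℝ) + 1) * 1.4) := by linarith
      _ ≤ ((1 / (p : ℝ)) * 4 ^ (i + 1)) * (((i : ℝ) + 1) * 1.4) := by gcongr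
      _ = _ := by ring
  rw [← Finset.sum_mul] at h2
  have h3 : (4 : ℝ) ^ i ≤ R (pr (4 ^ i) (4 ^ (i + 1))) * (4 ^ (i + 1) * (((i : ℝ) + 1) * 1.4)) :=
    h1.trans h2
  have hpos : (0 : ℝ) < 4 ^ i := by positivity
  rw [div_le_iff₀ (by positivity)]
  have h4 : (4 : ℝ) ^ i * 1 ≤ 4 ^ i * (R (pr (4 ^ i) (4 ^ (i + 1))) * (5.6 * ((i : ℝ) + 1))) := by
    rw [mul_one]
    refine h3.trans (le_of_eq ?_)
    rw [pow_succ (4 : ℝ) i]
    ring
  have h5 := le_of_mul_le_mul_left h4 hpos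
  have h6 := R_nonneg (pr (4 ^ i) (4 ^ (i + 1)))
  nlinarith [mul_nonneg h6 hi1.le]

lemma blocks {a b : ℕ} (ha : 10 ≤ a) (hab : a ≤ b) :
    ((b : ℝ) - a) / (6 * b) ≤ R (pr (4 ^ a) (4 ^ b)) := by
  have hb0 : (0 : ℝ) < b := by
    have : 0 < b := by omega
    exact_mod_cast this
  have key : ∀ c, a ≤ c → c ≤ b → ((c : ℝ) - a) / (6 * b) ≤ R (pr (4 ^ a) (4 ^ c)) := by
    intro c hc
    induction c, hc using Nat.le_induction with
    | base =>
      intro _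
      simp only [sub_self, zero_div]
      exact R_nonneg _
    | succ n hn ih =>
      intro hnb
      have h1 := ih (by omega)
      have h2 := block n (by omega)
      have h3 : 1 / (6 * (b : ℝ)) ≤ 1 / (6 * ((n : ℝ) + 1)) := by
        apply one_div_le_one_div_of_le (by positivity)
        have : ((n + 1 : ℕ) : ℝ) ≤ b := by exact_mod_cast hnb
        push_cast at this
        linarith
      rw [← R_pr_add (Nat.pow_le_pow_right (by norm_num) hn)
        (Nat.pow_le_pow_right (by norm_num) (Nat.le_succ n))]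
      push_cast
      have e : ((n : ℝ) + 1 - a) / (6 * b) = ((n : ℝ) - a) / (6 * b) + 1 / (6 * b) := by ring
      rw [e]
      linarith
  exact key b hab le_rfl

lemma long (a : ℕ) (ha : 10 ≤ a) (T : ℕ) : (T : ℝ) / 12 ≤ R (pr (4 ^ a) (4 ^ (2 ^ T * a))) := by
  induction T with
  | zero => simp only [CharP.cast_eq_zero, zero_div]; exact R_nonneg _
  | succ T ih =>
    have h1 : a ≤ 2 ^ T * a := Nat.le_mul_of_pos_left _ (by positivity)
    have h2 : 2 ^ T * a ≤ 2 ^ (T + 1) * a := by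
      rw [pow_succ]; nlinarith
    rw [← R_pr_add (Nat.pow_le_pow_right (by norm_num) h1)
      (Nat.pow_le_pow_right (by norm_num) h2)]
    have h3 := blocks (a := 2 ^ T * a) (b := 2 ^ (T + 1) * a) (by omega) h2
    have h4 : (((2 ^ (T + 1) * a : ℕ) : ℝ) - ((2 ^ T * a : ℕ) : ℝ)) /
        (6 * ((2 ^ (T + 1) * a : ℕ) : ℝ)) = 1 / 12 := by
      have ha0 : (a : ℝ) ≠ 0 := by
        have : a ≠ 0 := by omega
        exact_mod_cast this
      push_cast
      rw [pow_succ]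
      field_simp
      ring
    rw [h4] at h3
    push_cast
    linarith

/-- a set of primes in `(z, b]` with reciprocal sum close to `ρ` -/
lemma cls {z b : ℕ} {ρ : ℝ} (hz : 0 < z) (hρ : 0 < ρ) (h : ρ ≤ R (pr z b)) :
    ∃ t ≤ b, ρ ≤ R (pr z t) ∧ R (pr z t) ≤ ρ + 1 / z := by
  classical
  have hex : ∃ t, ρ ≤ R (pr z t) := ⟨b, h⟩
  set t := Nat.find hex with ht
  have ht1 : ρ ≤ R (pr z t) := Nat.find_spec hex
  refine ⟨t, Nat.find_le h, ht1, ?_⟩
  have hzt : z < t := by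
    by_contra hcon
    push Not at hcon
    have : pr z t = ∅ := by
      unfold pr
      rw [Finset.Ioc_eq_empty (by omega)]
      simp
    rw [this] at ht1
    simp only [R, Finset.sum_empty] at ht1
    linarith
  have h1 : ¬ ρ ≤ R (pr z (t - 1)) := Nat.find_min hex (by omega)
  push Not at h1
  have h2 : pr z t ⊆ insert t (pr z (t - 1)) := by
    intro p hp
    rw [mem_pr] at hp
    rw [Finset.mem_insert, mem_pr]
    by_cases h3 : p = t
    · exact Or.inl h3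
    · exact Or.inr ⟨hp.1, by omega, hp.2.2⟩
  have h3 : R (pr z t) ≤ 1 / t + R (pr z (t - 1)) := by
    refine (R_mono h2).trans (le_of_eq ?_)
    apply R_insert
    rw [mem_pr]
    omega
  have h4 : 1 / (t : ℝ) ≤ 1 / z := by
    apply one_div_le_one_div_of_le (by exact_mod_cast hz)
    exact_mod_cast hzt.le
  linarith

end Pool.Agent.TH941.UF
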