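import Mathlib
import Pool.Agent.TH941.UF.Minor
import Pool.Agent.TH941.UF.Primes

set_option autoImplicit false

/-!
# Finite sets all of whose large subsets contain a representation of 1
-/

namespace Pool.Agent.TH941.UF

open Finset

lemma exists_s (H : ℕ) : ∃ s : ℕ, (2 / 3 : ℝ) ^ s * ((2 * s + 1 : ℕ) + (3 : ℕ)) * (3 * H) ≤ 1 / 2 := by
  have h1 : Filter.Tendsto (fun s : ℕ => (s : ℝ) ^ 1 * (2 / 3 : ℝ) ^ s) Filter.atTop (nhds 0) :=
    tendsto_pow_const_mul_const_pow_of_abs_lt_one 1 (by norm_num [abs_of_pos])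
  have h2 : Filter.Tendsto (fun s : ℕ => (2 / 3 : ℝ) ^ s) Filter.atTop (nhds 0) :=
    tendsto_pow_atTop_nhds_zero_of_lt_one (by norm_num) (by norm_num)
  have h3 : Filter.Tendsto (fun s : ℕ => (2 / 3 : ℝ) ^ s * ((2 * s + 1 : ℕ) + (3 : ℕ)) * (3 * H))
      Filter.atTop (nhds ((2 * 0 + 4 * 0) * (3 * H))) := by
    refine (((h1.const_mul 2).add (h2.const_mul 4)).mul_const (3 * (H : ℝ))).congr fun s => ?_
    push_cast
    ring
  have h4 : ((2 * 0 + 4 * 0) * (3 * H) : ℝ) = 0 := by ring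
  rw [h4] at h3
  have h5 := (h3.eventually (gt_mem_nhds (show (0 : ℝ) < 1 / 2 by norm_num))).exists
  obtain ⟨s, hs⟩ := h5
  exact ⟨s, hs.le⟩

lemma self_dvd {k m : ℕ} {P : Fin k → Finset ℕ} {Qt : Fin m → Finset ℕ} (H : Cls P Qt)
    {B : Finset ℕ} (hB : B ⊆ XX P Qt) {n : ℕ} (hn : n ∈ B) : n ∣ ∏ q ∈ Q B, q := by
  classical
  have hnX := hB hn
  rw [XX, Finset.mem_image] at hnX
  obtain ⟨⟨f, g⟩, hfg, hfgn⟩ := hnX
  rw [Finset.mem_product] at hfg
  obtain ⟨hf, hg⟩ := hfg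
  simp only at hf hg hfgn
  have hfm := Fintype.mem_piFinset.1 hf
  have hgm := Fintype.mem_piFinset.1 hg
  have hinj : Function.Injective (Sum.elim f g) := by
    rintro (i | i) (j | j) hij
    · simp only [Sum.elim_inl] at hij
      rw [H.hPP i j (f i) (hfm i) (by rw [hij]; exact hfm j)]
    · simp only [Sum.elim_inl, Sum.elim_inr] at hij
      exact (H.hPQ i j (f i) (hfm i) (by rw [hij]; exact hgm j)).elim
    · simp only [Sum.elim_inl, Sum.elim_inr] at hij
      exact (H.hPQ j i (f j) (hfm j) (by rw [← hij]; exact hgm i)).elim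
    · simp only [Sum.elim_inr] at hij
      rw [H.hQQ i j (g i) (hgm i) (by rw [hij]; exact hgm j)]
  have e : n = ∏ q ∈ Finset.univ.image (Sum.elim f g), q := by
    rw [Finset.prod_image (fun x _ y _ h => hinj h), Fintype.prod_sum_type, ← hfgn]
    rfl
  have hn0 : n ≠ 0 := by
    rw [← hfgn]
    exact (Nat.mul_pos (pp_pos H.hP hf) (pp_pos H.hQ hg)).ne'
  have hsub : Finset.univ.image (Sum.elim f g) ⊆ Q B := by
    intro q hq
    rw [Finset.mem_image] at hq
    obtain ⟨i, -, rfl⟩ := hq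
    rw [Q, Finset.mem_biUnion]
    refine ⟨n, hn, ?_⟩
    rw [Nat.mem_primeFactors]
    rcases i with i | j
    · refine ⟨H.hP i _ (hfm i), ?_, hn0⟩
      rw [← hfgn]
      exact (f_dvd_pp f i).mul_right _
    · refine ⟨H.hQ j _ (hgm j), ?_, hn0⟩
      rw [← hfgn]
      exact (f_dvd_pp g j).mul_left _
  calc n = ∏ q ∈ Finset.univ.image (Sum.elim f g), q := e
    _ ∣ ∏ q ∈ Q B, q := Finset.prod_dvd_prod_of_subset _ _ _ hsub

/-- the abstract form of the main theorem on product sets -/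
theorem core {k : ℕ} {P : Fin k → Finset ℕ} {Qt : Fin 3 → Finset ℕ} (H : Cls P Qt)
    {v s : ℕ} (hv : 1 ≤ v) (hs : 2 * s < k)
    (hlow : ∀ g ∈ Fintype.piFinset Qt, 4 ^ (243 * v) ≤ pp g)
    (hup : ∀ n ∈ XX P Qt, n ≤ 4 ^ (250 * v))
    (hpr : ∀ q ∈ Q (XX P Qt), q ≤ 4 ^ (83 * v))
    (hbig : ∀ i, ∀ E ⊆ P i, R (P i) / 3 < R E → 4 ^ (243 * v) ≤ ∏ p ∈ E, p)
    (hmass : (2 / 3 : ℝ) ^ s * (k + (3 : ℕ)) * R (XX P Qt) ≤ 1 / 2)
    {A : Finset ℕ} (hA : A ⊆ XX P Qt) (hA3 : 3 ≤ R A) :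
    ∃ S ⊆ A, ∑ n ∈ S, (1 : ℚ) / n = 1 := by
  classical
  set M : ℝ := 4 ^ (243 * v) with hMdef
  set y : ℕ := 4 ^ (83 * v) with hydef
  have hM1 : 1 ≤ M := one_le_pow₀ (by norm_num)
  have hM0 : 0 < M := by linarith
  have hy1 : 1 ≤ y := Nat.one_le_pow _ _ (by norm_num)
  have hy1r : (1 : ℝ) ≤ y := by exact_mod_cast hy1
  have hy4 : 4 ≤ y := by
    calc 4 = 4 ^ 1 := by norm_num
      _ ≤ 4 ^ (83 * v) := Nat.pow_le_pow_right (by norm_num) (by omega)
  have hyM : (y : ℝ) * 4 ^ (160 * v) = M := by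
    rw [hydef, hMdef]
    push_cast
    rw [← pow_add]
    congr 1
    omega
  -- elements of `X`
  have hXM : ∀ n ∈ XX P Qt, 4 ^ (243 * v) ≤ n := by
    intro n hn
    rw [XX, Finset.mem_image] at hn
    obtain ⟨⟨f, g⟩, hfg, rfl⟩ := hn
    rw [Finset.mem_product] at hfg
    exact (hlow g hfg.2).trans (Nat.le_mul_of_pos_left _ (pp_pos H.hP hfg.1))
  have hXMr : ∀ n ∈ XX P Qt, M ≤ (n : ℝ) := by
    intro n hn
    rw [hMdef]
    exact_mod_cast hXM n hn
  -- thresholds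
  set τ : ℝ := 1 / (2 * y) with hτ
  have hτ0 : 0 < τ := by positivity
  set ε : ℕ → ℝ := fun q => (2 / 3) ^ s * V P Qt q + τ with hε
  have hε0 : ∀ q, 0 ≤ ε q := fun q => by
    have := V_nonneg P Qt q
    simp only [hε]
    positivity
  have hQprime : ∀ q ∈ Q (XX P Qt), q.Prime := by
    intro q hq
    rw [Q, Finset.mem_biUnion] at hq
    obtain ⟨n, _, hn⟩ := hq
    exact Nat.prime_of_mem_primeFactors hn
  have hQsub : ∀ B : Finset ℕ, B ⊆ XX P Qt → Q B ⊆ (Finset.Icc 1 y).filter Nat.Prime := by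
    intro B hB q hq
    have hq' := Q_mono hB hq
    rw [Finset.mem_filter, Finset.mem_Icc]
    exact ⟨⟨(hQprime q hq').one_lt.le, hpr q hq'⟩, hQprime q hq'⟩
  have hQcard : ∀ B : Finset ℕ, B ⊆ XX P Qt → ((Q B).card : ℝ) ≤ y := by
    intro B hB
    have h1 := Finset.card_le_card ((hQsub B hB).trans (Finset.filter_subset _ _))
    rw [Nat.card_Icc] at h1
    have : (Q B).card ≤ y := by omega
    exact_mod_cast this
  have hsumε : ∑ q ∈ Q A, ε q ≤ 1 := by
    simp only [hε]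
    rw [Finset.sum_add_distrib, ← Finset.mul_sum, Finset.sum_const, nsmul_eq_mul]
    have h1 := sum_V H (Q A) (fun q hq => hQprime q (Q_mono hA hq))
    have h2 : (2 / 3 : ℝ) ^ s * ∑ q ∈ Q A, V P Qt q ≤ 1 / 2 := by
      calc (2 / 3 : ℝ) ^ s * ∑ q ∈ Q A, V P Qt q ≤
            (2 / 3 : ℝ) ^ s * (((k : ℝ) + (3 : ℕ)) * R (XX P Qt)) := by gcongr
        _ = (2 / 3 : ℝ) ^ s * (k + (3 : ℕ)) * R (XX P Qt) := by ring
        _ ≤ 1 / 2 := hmass
    have h3 : ((Q A).card : ℝ) * τ ≤ 1 / 2 := by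
      calc ((Q A).card : ℝ) * τ ≤ y * τ := by
            have := hQcard A hA
            gcongr
        _ = 1 / 2 := by rw [hτ]; field_simp
    linarith
  have hyM2 : (y : ℝ) * (1 / M) < 1 := by
    rw [← hyM]
    have h1 : (1 : ℝ) < 4 ^ (160 * v) := one_lt_pow₀ (by norm_num) (by omega)
    rw [mul_one_div, div_lt_one (by positivity)]
    nlinarith
  obtain ⟨B, hBA, hB1, hB2, hBr⟩ := prune A M ε hM0 (fun n hn => hXMr n (hA hn)) hε0
    (by linarith) (by
      rw [Finset.sum_add_distrib, Finset.sum_const, nsmul_eq_mul]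
      have h1 : ((Q A).card : ℝ) * (1 / M) ≤ y * (1 / M) := by
        have := hQcard A hA
        gcongr
      linarith)
  have hBX := hBA.trans hA
  set PP : ℕ := ∏ q ∈ Q B, q with hPP
  have hPP0 : 0 < PP := Finset.prod_pos fun q hq => (hQprime q (Q_mono hBX hq)).pos
  have hPP4 : PP ≤ 4 ^ y := by
    refine le_trans ?_ (primorial_le_four_pow y)
    have h1 : PP ∣ primorial y := by
      rw [hPP]
      unfold primorial
      apply Finset.prod_dvd_prod_of_subset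
      intro q hq
      have := hQsub B hBX hq
      rw [Finset.mem_filter, Finset.mem_Icc] at this
      rw [Finset.mem_filter, Finset.mem_range]
      exact ⟨by omega, this.2⟩
    exact Nat.le_of_dvd (primorial_pos y) h1
  have hPP4r : (PP : ℝ) ≤ 4 ^ y := by exact_mod_cast hPP4
  have hcardB : M ≤ B.card := by
    have h1 : R B ≤ (B.card : ℝ) * (1 / M) := by
      unfold R
      rw [← nsmul_eq_mul]
      apply Finset.sum_le_card_nsmul
      intro n hn
      exact one_div_le_one_div_of_le hM0 (hXMr n (hBX hn))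
    have h2 : 1 ≤ R B := by
      have : 1 / M ≤ 1 := by rw [div_le_one hM0]; exact hM1
      linarith
    have h3 : 1 ≤ (B.card : ℝ) * (1 / M) := h2.trans h1
    rw [mul_one_div, le_div_iff₀ hM0] at h3
    linarith
  have hne : (Q B).Nonempty := by
    have hBne : B.Nonempty := by
      rw [Finset.nonempty_iff_ne_empty]
      rintro rfl
      simp at hcardB
      linarith
    obtain ⟨n, hn⟩ := hBne
    have hn2 : n ≠ 1 := by
      have h1 := hXM n (hBX hn)
      have h2 : 4 ^ 1 ≤ 4 ^ (243 * v) := Nat.pow_le_pow_right (by norm_num) (by omega)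
      omega
    obtain ⟨p, hp, hpn⟩ := Nat.exists_prime_and_dvd hn2
    refine ⟨p, ?_⟩
    rw [Q, Finset.mem_biUnion]
    refine ⟨n, hn, Nat.mem_primeFactors.2 ⟨hp, hpn, ?_⟩⟩
    have h1 := hXM n (hBX hn)
    have h2 : 0 < 4 ^ (243 * v) := by positivity
    omega
  set T : ℕ := 4 ^ (97 * v + 2) with hTdef
  have hT : (T : ℝ) ≤ τ * M := by
    rw [hτ, ← hyM, hTdef]
    have h1 : 1 / (2 * (y : ℝ)) * (y * 4 ^ (160 * v)) = 4 ^ (160 * v) / 2 := by field_simp
    rw [h1, le_div_iff₀ (by norm_num)]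
    push_cast
    calc (4 : ℝ) ^ (97 * v + 2) * 2 ≤ 4 ^ (97 * v + 2) * 4 := by gcongr; norm_num
      _ = 4 ^ (97 * v + 3) := by rw [← pow_succ]
      _ ≤ 4 ^ (160 * v) := pow_le_pow_right₀ (by norm_num) (by omega)
  obtain ⟨S, hSB, hS⟩ := circle B PP M (4 ^ (250 * v)) (M / 4) T hPP0 hM1 (by positivity)
    (fun n hn => ⟨hXMr n (hBX hn), by exact_mod_cast hup n (hBX hn), self_dvd H hBX hn⟩)
    hB1 hB2
    (fun h h1 h2 => minor H hBX hM0 (fun n hn => hXMr n (hBX hn))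
      (fun g hg => by
        have h3 : M ≤ pp g := by rw [hMdef]; exact_mod_cast hlow g hg
        linarith)
      (fun i E hE hR => by
        have h3 : M ≤ ((∏ p ∈ E, p : ℕ) : ℝ) := by
          rw [hMdef]
          exact_mod_cast hbig i E hE hR
        linarith)
      hs hBr hT hne h h1 h2)
    (by
      have e : 2 * (M / 4 / 4 ^ (250 * v)) ^ 2 * (T : ℝ) = 2 * y := by
        rw [hTdef, hMdef, hydef]
        push_cast
        rw [show 250 * v = 243 * v + 7 * v by ring, show 97 * v + 2 = 83 * v + 2 * (7 * v) + 2 by ring]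
        rw [pow_add, pow_add, pow_add, pow_mul 4 2 (7 * v)]
        have h1 : (4 : ℝ) ^ (243 * v) ≠ 0 := by positivity
        have h2 : (4 : ℝ) ^ (7 * v) ≠ 0 := by positivity
        rw [show ((4 : ℝ) ^ 2) ^ (7 * v) = (4 ^ (7 * v)) ^ 2 by rw [← pow_mul, ← pow_mul, mul_comm]]
        field_simp
      rw [e]
      have h1 : (4 : ℝ) ^ y = Real.exp (y * Real.log 4) := by
        rw [mul_comm, Real.exp_mul, Real.exp_log (by norm_num), Real.rpow_natCast]
      have h2 : (2 : ℝ) = Real.exp (Real.log 2) := (Real.exp_log (by norm_num)).symm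
      have hlog4 : Real.log 4 = 2 * Real.log 2 := by
        rw [show (4 : ℝ) = 2 ^ 2 by norm_num, Real.log_pow]; norm_num
      have hl2 := Real.log_two_lt_d9
      have hy4r : (4 : ℝ) ≤ y := by exact_mod_cast hy4
      calc 2 * (PP : ℝ) ≤ 2 * 4 ^ y := by gcongr
        _ = Real.exp (Real.log 2 + y * Real.log 4) := by
          rw [Real.exp_add, ← h1, Real.exp_log (by norm_num)]
        _ ≤ Real.exp (2 * y) := by
          apply Real.exp_le_exp.2
          rw [hlog4]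
          nlinarith)
    (by
      have h1 : 2 * y + 2 ≤ B.card := by
        have h2 : (4 : ℝ) ^ (160 * v) ≥ 4 := by
          calc (4 : ℝ) ^ (160 * v) ≥ 4 ^ 1 := pow_le_pow_right₀ (by norm_num) (by omega)
            _ = 4 := by norm_num
        have h3 : (2 : ℝ) * y + 2 ≤ B.card := by
          have : (4 : ℝ) * y ≤ M := by rw [← hyM]; nlinarith
          linarith
        exact_mod_cast h3
      calc 2 * (PP : ℝ) ≤ 2 * 4 ^ y := by gcongr
        _ = 2 ^ (2 * y + 1) := by rw [show (4 : ℝ) = 2 ^ 2 by norm_num, ← pow_mul]; ring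
        _ < 2 ^ B.card := pow_lt_pow_right₀ (by norm_num) (by omega))
  exact ⟨S, hSB.trans hBA, hS⟩

/-- For every `r` and `N₀` there is a finite set `X` of integers `≥ N₀` with reciprocal sum at
least `3 r` such that every subset of reciprocal sum at least `3` contains a set with reciprocal
sum exactly `1`. -/
theorem star (r N₀ : ℕ) : ∃ X : Finset ℕ, (∀ n ∈ X, N₀ ≤ n) ∧ (3 * r : ℝ) ≤ R X ∧
    ∀ A ⊆ X, 3 ≤ R A → ∃ S ⊆ A, ∑ n ∈ S, (1 : ℚ) / n = 1 := by
  classical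
  obtain ⟨Hn, hHn⟩ : ∃ x : ℕ, x = 3 * (r + 1) * 500 ^ 3 := ⟨_, rfl⟩
  obtain ⟨s, hs⟩ := exists_s Hn
  obtain ⟨T0, hT0⟩ : ∃ x : ℕ, x = 12 * Hn := ⟨_, rfl⟩
  have hprodρ' : ∀ k : ℕ, k = 2 * s + 1 →
      ∏ i : Fin k, (if (i : ℕ) = 0 then (Hn : ℝ) else 1) = Hn := by
    rintro k rfl
    rw [Fin.prod_univ_succ]
    simp
  obtain ⟨k, hk⟩ : ∃ x : ℕ, x = 2 * s + 1 := ⟨_, rfl⟩
  rw [← hk] at hs
  obtain ⟨C, hC⟩ : ∃ x : ℕ, x = 2 ^ (T0 * k) * k := ⟨_, rfl⟩
  obtain ⟨a, ha⟩ : ∃ x : ℕ, x = 729 + k + N₀ + C := ⟨_, rfl⟩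
  obtain ⟨v, hv⟩ : ∃ x : ℕ, x = 4 ^ a := ⟨_, rfl⟩
  have ha1 : 729 ≤ a := by omega
  have hv1 : 1 ≤ v := by rw [hv]; exact Nat.one_le_pow _ _ (by norm_num)
  have hav : a < v := by
    rw [hv]
    calc a < 2 ^ a := Nat.lt_two_pow_self
      _ ≤ 4 ^ a := Nat.pow_le_pow_left (by norm_num) a
  have haC : a * C ≤ 4 * v := by
    have h1 : a * C ≤ a * a := Nat.mul_le_mul_left _ (by omega)
    have h2 : a * a ≤ 2 ^ a * 2 ^ a := Nat.mul_le_mul Nat.lt_two_pow_self.le Nat.lt_two_pow_self.le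
    have h3 : 2 ^ a * 2 ^ a = v := by
      rw [← mul_pow, hv]
      norm_num
    omega
  -- endpoints
  obtain ⟨e, he⟩ : ∃ e : ℕ → ℕ, ∀ i, e i = 2 ^ (T0 * i) * a := ⟨_, fun _ => rfl⟩
  have hemono : Monotone e := by
    intro i j hij
    rw [he, he]
    exact Nat.mul_le_mul_right _ (Nat.pow_le_pow_right (by norm_num) (Nat.mul_le_mul_left _ hij))
  have he0 : e 0 = a := by rw [he]; simp
  have hea : ∀ i, a ≤ e i := fun i => by
    rw [← he0]; exact hemono (Nat.zero_le i)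
  have hestep : ∀ i, e (i + 1) = 2 ^ T0 * e i := by
    intro i
    rw [he, he, Nat.mul_succ, pow_add]
    ring
  have hek : e k * k ≤ 4 * v := by
    calc e k * k = a * C := by rw [he, hC]; ring
      _ ≤ 4 * v := haC
  have hk1 : 1 ≤ k := by omega
  have hek' : e k ≤ 4 * v := (Nat.le_mul_of_pos_right _ hk1).trans hek
  -- the low classes
  obtain ⟨ρ, hρ⟩ : ∃ ρ : ℕ → ℝ, ∀ i, ρ i = if i = 0 then (Hn : ℝ) else 1 := ⟨_, fun _ => rfl⟩
  have hHn1 : (1 : ℝ) ≤ Hn := by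
    have : 1 ≤ Hn := by rw [hHn]; nlinarith [Nat.zero_le r]
    exact_mod_cast this
  have hρ1 : ∀ i, 1 ≤ ρ i := by
    intro i
    rw [hρ]
    split_ifs
    · exact hHn1
    · exact le_rfl
  have hlowex : ∀ i : ℕ, ∃ t, t ≤ 4 ^ e (i + 1) ∧ ρ i ≤ R (pr (4 ^ e i) t) ∧
      R (pr (4 ^ e i) t) ≤ ρ i + 1 / ((4 ^ e i : ℕ) : ℝ) := by
    intro i
    have h1 := long (e i) (by have := hea i; omega) T0
    rw [← hestep] at h1
    have h2 : ρ i ≤ (T0 : ℝ) / 12 := by
      have h3 : (T0 : ℝ) / 12 = Hn := by rw [hT0]; push_cast; ring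
      rw [h3, hρ]
      split_ifs
      · exact le_rfl
      · exact hHn1
    obtain ⟨t, ht1, ht2, ht3⟩ := cls (z := 4 ^ e i) (by positivity)
      (by have := hρ1 i; linarith) (h2.trans h1)
    exact ⟨t, ht1, ht2, ht3⟩
  choose t ht1 ht2 ht3 using hlowex
  -- the top classes
  have htopex : ∀ j : Fin 3, ∃ t, t ≤ 4 ^ ((81 + j) * v) ∧ (1 / 500 : ℝ) ≤ R (pr (4 ^ ((80 + j) * v)) t) ∧
      R (pr (4 ^ ((80 + j) * v)) t) ≤ 1 / 500 + 1 / ((4 ^ ((80 + j) * v) : ℕ) : ℝ) := by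
    intro j
    have hj : (j : ℕ) < 3 := j.2
    have hle : (80 + (j : ℕ)) * v ≤ (81 + j) * v := Nat.mul_le_mul_right _ (by omega)
    have h1 := blocks (a := (80 + j) * v) (b := (81 + j) * v) (by nlinarith) hle
    have h2 : (1 / 500 : ℝ) ≤ ((((81 + (j : ℕ)) * v : ℕ) : ℝ) - (((80 + (j : ℕ)) * v : ℕ) : ℝ)) /
        (6 * (((81 + (j : ℕ)) * v : ℕ) : ℝ)) := by
      have hvr : (0 : ℝ) < v := by exact_mod_cast hv1
      have hjr : ((j : ℕ) : ℝ) ≤ 2 := by
        have : (j : ℕ) ≤ 2 := by omega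
        exact_mod_cast this
      have hj0 : (0 : ℝ) ≤ ((j : ℕ) : ℝ) := Nat.cast_nonneg _
      push_cast
      rw [div_le_div_iff₀ (by norm_num) (by positivity)]
      nlinarith
    obtain ⟨t, ht1, ht2, ht3⟩ := cls (z := 4 ^ ((80 + (j : ℕ)) * v)) (by positivity)
      (by norm_num) (h2.trans h1)
    exact ⟨t, ht1, ht2, ht3⟩
  choose u hu1 hu2 hu3 using htopex
  obtain ⟨P, hPdef⟩ : ∃ P : Fin k → Finset ℕ, ∀ i : Fin k, P i = pr (4 ^ e i) (t i) :=
    ⟨fun i => pr (4 ^ e i) (t i), fun _ => rfl⟩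
  obtain ⟨Qt, hQdef⟩ : ∃ Qt : Fin 3 → Finset ℕ, ∀ j : Fin 3,
      Qt j = pr (4 ^ ((80 + (j : ℕ)) * v)) (u j) :=
    ⟨fun j => pr (4 ^ ((80 + (j : ℕ)) * v)) (u j), fun _ => rfl⟩
  have hPmem : ∀ i : Fin k, ∀ p ∈ P i, 4 ^ e i < p ∧ p ≤ 4 ^ e (i + 1) ∧ p.Prime := by
    intro i p hp
    rw [hPdef, mem_pr] at hp
    exact ⟨hp.1, hp.2.1.trans (ht1 i), hp.2.2⟩
  have hQmem : ∀ j : Fin 3, ∀ p ∈ Qt j, 4 ^ ((80 + (j : ℕ)) * v) < p ∧ p ≤ 4 ^ ((81 + (j : ℕ)) * v) ∧
      p.Prime := by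
    intro j p hp
    rw [hQdef, mem_pr] at hp
    exact ⟨hp.1, hp.2.1.trans (hu1 j), hp.2.2⟩
  have hpow4 : ∀ {x y : ℕ}, x ≤ y → 4 ^ x ≤ 4 ^ y := fun h => Nat.pow_le_pow_right (by norm_num) h
  have hPk : ∀ i : Fin k, ∀ p ∈ P i, p ≤ 4 ^ e k := fun i p hp =>
    (hPmem i p hp).2.1.trans (hpow4 (hemono (by have := i.2; omega)))
  have H : Cls P Qt := by
    refine ⟨fun i p hp => (hPmem i p hp).2.2, fun j p hp => (hQmem j p hp).2.2, ?_, ?_, ?_⟩
    · intro i i' p hp hp'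
      by_contra hne
      have hne' : (i : ℕ) ≠ i' := fun h => hne (Fin.ext h)
      have h1 := hPmem i p hp
      have h2 := hPmem i' p hp'
      rcases lt_or_gt_of_ne hne' with h3 | h3
      · have := hpow4 (hemono (show (i : ℕ) + 1 ≤ i' by omega))
        omega
      · have := hpow4 (hemono (show (i' : ℕ) + 1 ≤ i by omega))
        omega
    · intro i i' p hp hp'
      by_contra hne
      have hne' : (i : ℕ) ≠ i' := fun h => hne (Fin.ext h)
      have h1 := hQmem i p hp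
      have h2 := hQmem i' p hp'
      rcases lt_or_gt_of_ne hne' with h3 | h3
      · have := hpow4 (Nat.mul_le_mul_right v (show 81 + (i : ℕ) ≤ 80 + i' by omega))
        omega
      · have := hpow4 (Nat.mul_le_mul_right v (show 81 + (i' : ℕ) ≤ 80 + i by omega))
        omega
    · intro i j p hp hp'
      have h1 := hPk i p hp
      have h2 := hQmem j p hp'
      have h3 : e k ≤ (80 + (j : ℕ)) * v := hek'.trans (Nat.mul_le_mul_right _ (by omega))
      have := hpow4 h3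
      omega
  have hlow : ∀ g ∈ Fintype.piFinset Qt, 4 ^ (243 * v) ≤ pp g := by
    intro g hg
    rw [Fintype.mem_piFinset] at hg
    unfold pp
    rw [Fin.prod_univ_three]
    have h0 := (hQmem 0 _ (hg 0)).1.le
    have h1 := (hQmem 1 _ (hg 1)).1.le
    have h2 := (hQmem 2 _ (hg 2)).1.le
    calc 4 ^ (243 * v) = 4 ^ ((80 + ((0 : Fin 3) : ℕ)) * v) * 4 ^ ((80 + ((1 : Fin 3) : ℕ)) * v) *
          4 ^ ((80 + ((2 : Fin 3) : ℕ)) * v) := by
          rw [← pow_add, ← pow_add]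
          congr 1
          simp only [Fin.val_zero, Fin.val_one, Fin.val_two]
          ring
      _ ≤ g 0 * g 1 * g 2 := Nat.mul_le_mul (Nat.mul_le_mul h0 h1) h2
  have hXup : ∀ n ∈ XX P Qt, n ≤ 4 ^ (250 * v) := by
    intro n hn
    rw [XX, Finset.mem_image] at hn
    obtain ⟨⟨f, g⟩, hfg, rfl⟩ := hn
    rw [Finset.mem_product] at hfg
    obtain ⟨hf, hg⟩ := hfg
    rw [Fintype.mem_piFinset] at hf hg
    simp only at hf hg ⊢
    have h1 : pp f ≤ 4 ^ (4 * v) := by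
      unfold pp
      calc ∏ i, f i ≤ ∏ _i : Fin k, 4 ^ e k :=
            Finset.prod_le_prod (fun i _ => Nat.zero_le _) fun i _ => hPk i _ (hf i)
        _ = 4 ^ (e k * k) := by
            rw [Finset.prod_const, Finset.card_univ, Fintype.card_fin, ← pow_mul]
        _ ≤ 4 ^ (4 * v) := hpow4 hek
    have h2 : pp g ≤ 4 ^ (246 * v) := by
      unfold pp
      rw [Fin.prod_univ_three]
      have h0 := (hQmem 0 _ (hg 0)).2.1
      have h1 := (hQmem 1 _ (hg 1)).2.1
      have h2 := (hQmem 2 _ (hg 2)).2.1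
      calc g 0 * g 1 * g 2 ≤ 4 ^ ((81 + ((0 : Fin 3) : ℕ)) * v) * 4 ^ ((81 + ((1 : Fin 3) : ℕ)) * v) *
            4 ^ ((81 + ((2 : Fin 3) : ℕ)) * v) := Nat.mul_le_mul (Nat.mul_le_mul h0 h1) h2
        _ = 4 ^ (246 * v) := by
            rw [← pow_add, ← pow_add]
            congr 1
            simp only [Fin.val_zero, Fin.val_one, Fin.val_two]
            ring
    calc pp f * pp g ≤ 4 ^ (4 * v) * 4 ^ (246 * v) := Nat.mul_le_mul h1 h2
      _ = 4 ^ (250 * v) := by rw [← pow_add]; congr 1; ring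
  have hpr : ∀ q ∈ Q (XX P Qt), q ≤ 4 ^ (83 * v) := by
    intro q hq
    rw [Q, Finset.mem_biUnion] at hq
    obtain ⟨n, hn, hqn⟩ := hq
    rw [XX, Finset.mem_image] at hn
    obtain ⟨⟨f, g⟩, hfg, rfl⟩ := hn
    rw [Finset.mem_product] at hfg
    obtain ⟨hf, hg⟩ := hfg
    simp only at hf hg hqn
    have hqp := Nat.prime_of_mem_primeFactors hqn
    rcases hqp.dvd_mul.1 (Nat.dvd_of_mem_primeFactors hqn) with h3 | h3
    · obtain ⟨i, hi⟩ := dvd_pp H.hP hf hqp h3
      rw [hi]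
      refine (hPk i _ (Fintype.mem_piFinset.1 hf i)).trans (hpow4 ?_)
      omega
    · obtain ⟨j, hj⟩ := dvd_pp H.hQ hg hqp h3
      rw [hj]
      refine (hQmem j _ (Fintype.mem_piFinset.1 hg j)).2.1.trans (hpow4 ?_)
      have := j.2
      exact Nat.mul_le_mul_right _ (by omega)
  have hRP1 : ∀ i : Fin k, ρ i ≤ R (P i) := fun i => by rw [hPdef]; exact ht2 i
  have hbig : ∀ i, ∀ E ⊆ P i, R (P i) / 3 < R E → 4 ^ (243 * v) ≤ ∏ p ∈ E, p := by
    intro i E hE hR
    have h1 : 1 ≤ R (P i) := (hρ1 i).trans (hRP1 i)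
    have hvr : (0 : ℝ) < v := by exact_mod_cast hv1
    have h2 : R E ≤ (E.card : ℝ) * (1 / v) := by
      unfold R
      rw [← nsmul_eq_mul]
      apply Finset.sum_le_card_nsmul
      intro p hp
      apply one_div_le_one_div_of_le hvr
      have h3 := (hPmem i p (hE hp)).1
      have h4 := hpow4 (hea i)
      have : v ≤ p := by omega
      exact_mod_cast this
    have h3 : v ≤ 3 * E.card := by
      have h4 : (1 : ℝ) / 3 < (E.card : ℝ) * (1 / v) := by linarith
      rw [mul_one_div, div_lt_div_iff₀ (by norm_num) hvr] at h4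
      have : (v : ℝ) ≤ 3 * E.card := by linarith
      exact_mod_cast this
    calc 4 ^ (243 * v) ≤ 4 ^ (a * E.card) := by
          apply hpow4
          nlinarith
      _ = ∏ _p ∈ E, 4 ^ a := by rw [Finset.prod_const, ← pow_mul]
      _ ≤ ∏ p ∈ E, p := by
          apply Finset.prod_le_prod (fun p _ => Nat.zero_le _)
          intro p hp
          have h3 := (hPmem i p (hE hp)).1
          have h4 := hpow4 (hea i)
          omega
  -- masses
  have hprodρ : ∏ i : Fin k, ρ i = Hn := by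
    simp only [hρ]
    exact hprodρ' k hk
  have hRXlow : (3 * (r + 1) : ℝ) ≤ R (XX P Qt) := by
    rw [R_XX H]
    have h1 : (Hn : ℝ) ≤ ∏ i, R (P i) := by
      rw [← hprodρ]
      exact Finset.prod_le_prod (fun i _ => by have := hρ1 i; linarith) fun i _ => hRP1 i
    have h2 : (1 / 500 : ℝ) ^ 3 ≤ ∏ j, R (Qt j) := by
      calc (1 / 500 : ℝ) ^ 3 = ∏ _j : Fin 3, (1 / 500 : ℝ) := by
            rw [Finset.prod_const, Finset.card_univ, Fintype.card_fin]
        _ ≤ ∏ j, R (Qt j) := Finset.prod_le_prod (fun j _ => by norm_num) fun j _ => by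
            rw [hQdef]; exact hu2 j
    calc (3 * (r + 1) : ℝ) = Hn * (1 / 500) ^ 3 := by rw [hHn]; push_cast; ring
      _ ≤ (∏ i, R (P i)) * ∏ j, R (Qt j) := by
        apply mul_le_mul h1 h2 (by positivity)
        exact Finset.prod_nonneg fun i _ => R_nonneg _
  have hRXup : R (XX P Qt) ≤ 3 * Hn := by
    rw [R_XX H]
    have hkv : (k : ℝ) ≤ v := by
      have : k ≤ v := by omega
      exact_mod_cast this
    have hvr : (0 : ℝ) < v := by exact_mod_cast hv1
    have h1 : ∏ i, R (P i) ≤ Hn * (1 + 1 / v) ^ k := by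
      calc ∏ i, R (P i) ≤ ∏ i : Fin k, (ρ i * (1 + 1 / v)) := by
            apply Finset.prod_le_prod (fun i _ => R_nonneg _)
            intro i _
            have h2 := ht3 i
            have h3 : 1 / ((4 ^ e i : ℕ) : ℝ) ≤ 1 / v := by
              apply one_div_le_one_div_of_le hvr
              have := hpow4 (hea i)
              rw [← hv] at this
              exact_mod_cast this
            have h4 := hρ1 i
            have h5 : (0 : ℝ) ≤ 1 / v := by positivity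
            rw [hPdef]
            nlinarith
        _ = Hn * (1 + 1 / v) ^ k := by
            rw [Finset.prod_mul_distrib, hprodρ, Finset.prod_const, Finset.card_univ,
              Fintype.card_fin]
    have h2 : (1 + 1 / (v : ℝ)) ^ k ≤ 3 := by
      calc (1 + 1 / (v : ℝ)) ^ k ≤ (Real.exp (1 / v)) ^ k := by
            apply pow_le_pow_left₀ (by positivity)
            have := Real.add_one_le_exp (1 / (v : ℝ))
            linarith
        _ = Real.exp (k * (1 / v)) := by rw [← Real.exp_nat_mul]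
        _ ≤ Real.exp 1 := by
            apply Real.exp_le_exp.2
            rw [mul_one_div, div_le_one hvr]
            exact hkv
        _ ≤ 3 := by have := Real.exp_one_lt_d9; linarith
    have h3 : ∏ j, R (Qt j) ≤ 1 := by
      apply Finset.prod_le_one (fun j _ => R_nonneg _)
      intro j _
      have h4 := hu3 j
      have h5 : 1 / ((4 ^ ((80 + (j : ℕ)) * v) : ℕ) : ℝ) ≤ 1 / 4 := by
        apply one_div_le_one_div_of_le (by norm_num)
        have : 4 ^ 1 ≤ 4 ^ ((80 + (j : ℕ)) * v) := hpow4 (by nlinarith)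
        exact_mod_cast this
      rw [hQdef]
      linarith
    have h4 : 0 ≤ ∏ j, R (Qt j) := Finset.prod_nonneg fun j _ => R_nonneg _
    calc (∏ i, R (P i)) * ∏ j, R (Qt j) ≤ (Hn * 3) * 1 := by
          apply mul_le_mul _ h3 h4 (by positivity)
          exact h1.trans (by gcongr)
      _ = 3 * Hn := by ring
  have hmass : (2 / 3 : ℝ) ^ s * (k + (3 : ℕ)) * R (XX P Qt) ≤ 1 / 2 := by
    refine le_trans ?_ hs
    gcongr
  refine ⟨XX P Qt, ?_, ?_, fun A hA hA3 => core H hv1 (by omega) hlow hXup hpr hbig hmass hA hA3⟩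
  · intro n hn
    rw [XX, Finset.mem_image] at hn
    obtain ⟨⟨f, g⟩, hfg, rfl⟩ := hn
    rw [Finset.mem_product] at hfg
    have h1 := (hlow g hfg.2).trans (Nat.le_mul_of_pos_left _ (pp_pos H.hP hfg.1))
    have h2 : a ≤ 4 ^ (243 * v) := by
      calc a ≤ v := hav.le
        _ ≤ 4 ^ v := (Nat.lt_pow_self (by norm_num)).le
        _ ≤ 4 ^ (243 * v) := hpow4 (by omega)
    simp only at h1 ⊢
    omega
  · have : (3 * r : ℝ) ≤ 3 * (r + 1) := by linarith
    exact this.trans hRXlow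

end Pool.Agent.TH941.UF
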